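import Pool.Agent.N610.PL.Stm

set_option autoImplicit false

/-!
# Steady irregularities: the main statement from the parts (helper610)
-/

namespace Pool.Agent.N610.PL

open Finset Filter

namespace FIN

lemma steady_mono {A C C' : ℝ} (h : C ≤ C') {x : ℕ} (hs : Steady A C x) : Steady A C' x := by
  refine ⟨fun k h1 h2 => (hs.1 k h1 h2).trans h, fun lam h1 h2 k h3 => (hs.2 lam h1 h2 k h3).trans ?_⟩
  exact mul_le_mul_of_nonneg_right h (sq_nonneg _)

/-- the length of the rows -/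
lemma length (a κ : ℝ) (ha : 1 ≤ a) (hκ : 0 < κ) : ∀ᶠ X : ℕ in atTop, 0 < Real.log X ∧
    Real.log X ^ a ≤ (⌈Real.log X ^ a⌉₊ : ℝ) ∧ (⌈Real.log X ^ a⌉₊ : ℝ) ≤ Real.log X ^ (a + κ) := by
  have h1 : Tendsto (fun X : ℕ => Real.log X) atTop atTop :=
    Real.tendsto_log_atTop.comp tendsto_natCast_atTop_atTop
  have h2 : Tendsto (fun X : ℕ => Real.log X ^ κ) atTop atTop := (tendsto_rpow_atTop hκ).comp h1
  filter_upwards [h1.eventually_ge_atTop 1, h2.eventually_ge_atTop 2] with X h3 h4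
  have h5 : 0 < Real.log X := by linarith
  refine ⟨h5, Nat.le_ceil _, ?_⟩
  have h6 : 1 ≤ Real.log X ^ a := Real.one_le_rpow h3 (by linarith)
  have h7 := (Nat.ceil_lt_add_one (show 0 ≤ Real.log X ^ a by linarith)).le
  rw [Real.rpow_add h5]
  nlinarith

end FIN

theorem t_FIN (h1 : S_MAI) (h2 : S_RICH) (h3 : S_POOR) (h4 : S_ST) : S_FIN := by
  classical
  intro A hA
  obtain ⟨κ1, d1, hκ1, hd1, hd11, hm1⟩ := h1 (A + 2) (by linarith) 1 (Or.inl rfl)
  obtain ⟨κ2, d2, hκ2, hd2, hd21, hm2⟩ := h1 (A + 2) (by linarith) (-1) (Or.inr rfl)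
  obtain ⟨c1, K, hc1, hK, hrich⟩ := h2 A d1 hA hd1 hd11
  obtain ⟨C1, hC1, hs1⟩ := h4 A c1 hA hc1
  obtain ⟨C2, hC2, hs2⟩ := h4 A (d2 / 4) hA (by positivity)
  refine ⟨min (d1 / 8) (d2 / 2), max (max C1 C2) K, lt_min (by positivity) (by positivity),
    lt_max_of_lt_right hK, fun ε hε => ?_⟩
  have hε2 : 0 < ε / 2 := by positivity
  filter_upwards [hm1 (ε / 2) hε2, hm2 (ε / 2) hε2, hrich (A + 2 + κ1),
    h3 A d2 (A + 2 + κ2) hA hd2 hd21, hs1 (A + 2 + κ1) ε hε, hs2 (A + 2 + κ2) ε hε,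
    FIN.length (A + 2) κ1 (by linarith) hκ1, FIN.length (A + 2) κ2 (by linarith) hκ2,
    (Real.tendsto_log_atTop.comp tendsto_natCast_atTop_atTop).eventually_ge_atTop 1]
    with X hX1 hX2 hR hP hS1 hS2 hl1 hl2 hlog
  simp only [Function.comp_apply] at hlog
  have hpw : Real.log X ^ (A + 1) ≤ Real.log X ^ (A + 2) :=
    Real.rpow_le_rpow_of_exponent_le hlog (by linarith)
  set T := ⌈Real.log X ^ (A + 2)⌉₊ with hT
  constructor
  · obtain ⟨W, w, hrows, hWε, hw⟩ := hX1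
    have h5 := hw T hl1.2.1 hl1.2.2
    have h6 := hR W w hrows T hl1.2.1 hl1.2.2 (by linarith)
    have h7 := hS1 W w hrows hWε T (hpw.trans hl1.2.1) hl1.2.2
      (fun x => ∀ h : ℕ, K * Real.log x ≤ h → (h : ℝ) ≤ Real.log x ^ A → 1 + d1 / 8 ≤ R x h) h6
    refine h7.trans ?_
    exact_mod_cast Finset.card_le_card (fun x hx => by
      rw [Finset.mem_filter] at hx ⊢
      obtain ⟨hx1, hx2, hx3⟩ := hx
      refine ⟨hx1, fun h ha hb => ?_, FIN.steady_mono
        ((le_max_left _ _).trans (le_max_left _ _)) hx3⟩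
      have hx0 : 0 ≤ Real.log x := Real.log_natCast_nonneg x
      have h8 := hx2 h ((mul_le_mul_of_nonneg_right (le_max_right _ _) hx0).trans ha) hb
      have h9 := min_le_left (d1 / 8) (d2 / 2)
      linarith)
  · obtain ⟨W, w, hrows, hWε, hw⟩ := hX2
    have h5 := hw T hl2.2.1 hl2.2.2
    have h6 := hP W w hrows T hl2.2.1 hl2.2.2 (by linarith)
    have h7 := hS2 W w hrows hWε T (hpw.trans hl2.2.1) hl2.2.2
      (fun x => ∀ h : ℕ, 1 ≤ h → (h : ℝ) ≤ Real.log x ^ A → R x h ≤ 1 - d2 / 2) h6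
    refine h7.trans ?_
    exact_mod_cast Finset.card_le_card (fun x hx => by
      rw [Finset.mem_filter] at hx ⊢
      obtain ⟨hx1, hx2, hx3⟩ := hx
      refine ⟨hx1, fun h ha hb => ?_, FIN.steady_mono
        ((le_max_right _ _).trans (le_max_left _ _)) hx3⟩
      have h8 := hx2 h ha hb
      have h9 := min_le_right (d1 / 8) (d2 / 2)
      linarith)

end Pool.Agent.N610.PL
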