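import Mathlib
import Pool.Agent.N610.JV.Stm

set_option autoImplicit false

/-!
# Steady irregularities of the primes in short intervals: statements (project PL, helper610)
-/

namespace Pool.Agent.N610.PL

open Finset Filter

/-- the number of the primes up to `x`, as a real number -/
noncomputable def pc (x : ℕ) : ℝ := (Nat.primeCounting x : ℝ)

/-- `R(x, h) = (π(x + h) - π(x)) / (h / log x)` -/
noncomputable def R (x h : ℕ) : ℝ := (pc (x + h) - pc x) * Real.log x / h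

/-- `R(x, h)` changes at least `k` times by at least `lam` for `lo ≤ h ≤ hi`: there are `k`
non-overlapping pairs of lengths in `[lo, hi]` between which `R(x, h)` changes by at least `lam`. -/
def Changes (x : ℕ) (lo hi lam : ℝ) (k : ℕ) : Prop :=
  ∃ s t : ℕ → ℕ, (∀ i < k, lo ≤ s i ∧ s i < t i ∧ (t i : ℝ) ≤ hi ∧
      lam ≤ |R x (t i) - R x (s i)|) ∧
    ∀ i, i + 1 < k → t i ≤ s (i + 1)

/-- rows of the Maier matrix: weights `w` on the multiples of `W` in `(X, 3 X)` -/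
structure Rows (X W : ℕ) (w : ℕ → ℝ) : Prop where
  pos : 0 < W
  small : (W : ℝ) ≤ (X : ℝ) ^ (1 / 2 : ℝ)
  prod : 1 / 2 ≤ ∏ p ∈ W.primeFactors, (1 - 1 / (p : ℝ))
  nonneg : ∀ n, 0 ≤ w n
  le : ∀ n, w n ≤ 20 * W / X
  supp : ∀ n, w n ≠ 0 → X < n ∧ n < 3 * X ∧ W ∣ n
  sum : ∑ n ∈ Icc 1 (3 * X), w n = 1

/-- Maier's theorem -/
def S_MAI : Prop := ∀ a : ℝ, 0 < a → ∀ σ : ℝ, (σ = 1 ∨ σ = -1) → ∃ κ d : ℝ, 0 < κ ∧ 0 < d ∧ d ≤ 1 ∧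
  ∀ ε : ℝ, 0 < ε → ∀ᶠ X : ℕ in atTop, ∃ (W : ℕ) (w : ℕ → ℝ), Rows X W w ∧ (W : ℝ) ≤ (X : ℝ) ^ ε ∧
    ∀ T : ℕ, Real.log X ^ a ≤ T → (T : ℝ) ≤ Real.log X ^ (a + κ) →
      d ≤ σ * (∑ n ∈ Icc 1 (3 * X), w n * R n T - 1)

/-- second moments along the rows -/
def S_SM : Prop := ∃ C : ℝ, 0 < C ∧ ∀ᶠ X : ℕ in atTop, ∀ (W : ℕ) (w : ℕ → ℝ), Rows X W w →
  ∀ u H : ℕ, Real.log X ≤ H →
    ∑ n ∈ Icc 1 (3 * X), w n * (pc (n + u + H) - pc (n + u)) ^ 2 ≤ C * (H / Real.log X) ^ 2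

open Classical in
/-- the jump inequality along the rows -/
def S_JR : Prop := ∃ C : ℝ, 0 < C ∧ ∀ᶠ X : ℕ in atTop, ∀ (W : ℕ) (w : ℕ → ℝ), Rows X W w →
  ∀ r : ℕ, Real.log X ≤ 2 ^ r → 2 ^ r ≤ X → ∀ lam : ℝ, 0 < lam → ∀ K : ℕ, 1 ≤ K →
    ∑ n ∈ Icc 1 (3 * X), w n *
      (((range (2 ^ r)).filter (fun v => Changes (n + v) (Real.log X) (2 ^ r) lam K)).card : ℝ) ≤
        C * 2 ^ r / (lam ^ 2 * K)

open Classical in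
/-- a positive proportion of rich positions -/
def S_RICH : Prop := ∀ A d : ℝ, 1 ≤ A → 0 < d → d ≤ 1 → ∃ c K : ℝ, 0 < c ∧ 0 < K ∧ ∀ B : ℝ,
  ∀ᶠ X : ℕ in atTop, ∀ (W : ℕ) (w : ℕ → ℝ), Rows X W w → ∀ T : ℕ,
    Real.log X ^ (A + 2) ≤ T → (T : ℝ) ≤ Real.log X ^ B →
    1 + d ≤ ∑ n ∈ Icc 1 (3 * X), w n * R n T →
    c * T ≤ ∑ n ∈ Icc 1 (3 * X), w n *
      (((range T).filter (fun v => ∀ h : ℕ, K * Real.log (n + v : ℕ) ≤ h →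
        (h : ℝ) ≤ Real.log (n + v : ℕ) ^ A → 1 + d / 8 ≤ R (n + v) h)).card : ℝ)

open Classical in
/-- a positive proportion of poor positions -/
def S_POOR : Prop := ∀ A d B : ℝ, 1 ≤ A → 0 < d → d ≤ 1 →
  ∀ᶠ X : ℕ in atTop, ∀ (W : ℕ) (w : ℕ → ℝ), Rows X W w → ∀ T : ℕ,
    Real.log X ^ (A + 2) ≤ T → (T : ℝ) ≤ Real.log X ^ B →
    ∑ n ∈ Icc 1 (3 * X), w n * R n T ≤ 1 - d →
    d / 4 * T ≤ ∑ n ∈ Icc 1 (3 * X), w n *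
      (((range T).filter (fun v => ∀ h : ℕ, 1 ≤ h →
        (h : ℝ) ≤ Real.log (n + v : ℕ) ^ A → R (n + v) h ≤ 1 - d / 2)).card : ℝ)

/-- bounded and steady: `R(x, h) ≤ C` for `log x ≤ h ≤ (log x) ^ A`, and `R(x, h)` changes at most
`C (log (2 / lam) / lam) ^ 2` times by at least `lam` in this range, for all `0 < lam ≤ 1`. -/
def Steady (A C : ℝ) (x : ℕ) : Prop :=
  (∀ h : ℕ, Real.log x ≤ h → (h : ℝ) ≤ Real.log x ^ A → R x h ≤ C) ∧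
  ∀ lam : ℝ, 0 < lam → lam ≤ 1 → ∀ k : ℕ, Changes x (Real.log x) (Real.log x ^ A) lam k →
    (k : ℝ) ≤ C * (Real.log (2 / lam) / lam) ^ 2

open Classical in
/-- most of a set of positions of positive proportion is steady -/
def S_ST : Prop := ∀ A c : ℝ, 1 ≤ A → 0 < c → ∃ C : ℝ, 0 < C ∧ ∀ B ε : ℝ, 0 < ε →
  ∀ᶠ X : ℕ in atTop, ∀ (W : ℕ) (w : ℕ → ℝ), Rows X W w → (W : ℝ) ≤ (X : ℝ) ^ (ε / 2) → ∀ T : ℕ,
    Real.log X ^ (A + 1) ≤ T → (T : ℝ) ≤ Real.log X ^ B → ∀ P : ℕ → Prop,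
    c * T ≤ ∑ n ∈ Icc 1 (3 * X), w n * (((range T).filter (fun v => P (n + v))).card : ℝ) →
    (X : ℝ) ^ (1 - ε) ≤ (((Ioc X (4 * X)).filter (fun x => P x ∧ Steady A C x)).card : ℝ)

open Classical in
/-- **the main statement** -/
def S_FIN : Prop := ∀ A : ℝ, 1 ≤ A → ∃ δ C : ℝ, 0 < δ ∧ 0 < C ∧ ∀ ε : ℝ, 0 < ε →
  ∀ᶠ X : ℕ in atTop,
    (X : ℝ) ^ (1 - ε) ≤ (((Ioc X (4 * X)).filter (fun x : ℕ => (∀ h : ℕ, C * Real.log x ≤ h →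
      (h : ℝ) ≤ Real.log x ^ A → 1 + δ ≤ R x h) ∧ Steady A C x)).card : ℝ) ∧
    (X : ℝ) ^ (1 - ε) ≤ (((Ioc X (4 * X)).filter (fun x : ℕ => (∀ h : ℕ, 1 ≤ h →
      (h : ℝ) ≤ Real.log x ^ A → R x h ≤ 1 - δ) ∧ Steady A C x)).card : ℝ)

end Pool.Agent.N610.PL
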