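import Mathlib
import Pool.Agent.N610.PL.Stm
import Pool.Agent.N610.JV.JUMP
import Pool.Agent.N610.JV.SUM
import Pool.Agent.N610.JV.WIN
import Pool.Agent.N610.JV.MART
import Pool.Agent.N610.JV.DROPNB

set_option autoImplicit false

/-!
# The jump inequality along the rows of Maier's matrix (project PL)
-/

namespace Pool.Agent.N610.PL

open Finset Filter

namespace JR

open Pool.Agent.N610.JV (S blk avg Jumps En S_JUMP)

theorem jump : S_JUMP :=
  Pool.Agent.N610.JV.t_JUMP Pool.Agent.N610.JV.t_MART Pool.Agent.N610.JV.t_WIN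
    (Pool.Agent.N610.JV.t_SUM Pool.Agent.N610.JV.t_DROP
      (Pool.Agent.N610.JV.t_NB Pool.Agent.N610.JV.t_DROP))

theorem sum_blocks (a : ℕ → ℝ) (D M : ℕ) (hD : 0 < D) :
    ∑ n ∈ range (M * D), a (n / D) = D * ∑ q ∈ range M, a q := by
  induction M with
  | zero => simp
  | succ M ih =>
    rw [Nat.succ_mul, sum_range_add, ih, sum_range_succ, mul_add]
    congr 1
    have h : ∀ x ∈ range D, a ((M * D + x) / D) = a M := by
      intro x hx
      rw [mem_range] at hx
      congr 1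
      rw [Nat.mul_comm M D, Nat.mul_add_div hD, Nat.div_eq_of_lt hx, add_zero]
    rw [sum_congr rfl h, sum_const, card_range, nsmul_eq_mul]

theorem En_eq (g : ℕ → ℝ) (b r : ℕ) (hb : b ≤ r) :
    En g b r = ∑ q ∈ range (2 ^ (r - b)), S g b q ^ 2 / 2 ^ b := by
  unfold En blk
  have h1 : (2 : ℕ) ^ r = 2 ^ (r - b) * 2 ^ b := by
    rw [← pow_add]
    congr 1
    omega
  rw [h1]
  have h2 := sum_blocks (fun q => (S g b q / 2 ^ b) ^ 2) (2 ^ b) (2 ^ (r - b)) (by positivity)
  rw [h2, mul_sum]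
  apply sum_congr rfl
  intro q _
  push_cast
  field_simp

theorem pc_mono : Monotone pc := by
  intro a b h
  unfold pc
  exact_mod_cast Nat.monotone_primeCounting h

/-- changes of `R` give jumps of the averages -/
theorem jumps_of {X n v b r K : ℕ} {lam : ℝ} (hL2 : 2 ≤ Real.log X) (hXn : X < n) (hn3 : n < 3 * X)
    (hrX : 2 ^ r ≤ X) (hv : v < 2 ^ r) (hb : ((2 : ℝ) ^ b) ≤ Real.log X)
    (h : Changes (n + v) (Real.log X) (2 ^ r) lam K) :
    Jumps (avg (fun v => pc (n + v)) v) (2 ^ b) (2 ^ r) (lam / (2 * Real.log X)) K := by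
  obtain ⟨s, t, h1, h2⟩ := h
  refine ⟨s, t, fun i hi => ?_, h2⟩
  obtain ⟨e1, e2, e3, e4⟩ := h1 i hi
  have hX0 : 0 < X := by
    rcases Nat.eq_zero_or_pos X with h | h
    · subst h; simp at hL2; linarith
    · exact h
  have hXr : (0 : ℝ) < X := by exact_mod_cast hX0
  refine ⟨?_, e2, ?_, ?_⟩
  · have : ((2 ^ b : ℕ) : ℝ) ≤ s i := by
      push_cast
      linarith
    exact_mod_cast this
  · have : ((t i : ℕ) : ℝ) ≤ ((2 ^ r : ℕ) : ℝ) := by
      push_cast
      exact e3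
    exact_mod_cast this
  · have hnv1 : (1 : ℝ) < ((n + v : ℕ) : ℝ) := by
      have : 1 < n + v := by omega
      exact_mod_cast this
    have hlog0 : 0 < Real.log ((n + v : ℕ) : ℝ) := Real.log_pos hnv1
    have hlog1 : Real.log ((n + v : ℕ) : ℝ) ≤ 2 * Real.log X := by
      have h3 : ((n + v : ℕ) : ℝ) ≤ 4 * X := by
        have : n + v ≤ 4 * X := by omega
        exact_mod_cast this
      have h4 : Real.log ((n + v : ℕ) : ℝ) ≤ Real.log (4 * X) :=
        Real.log_le_log (by linarith) h3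
      rw [Real.log_mul (by norm_num) hXr.ne'] at h4
      have h5 : Real.log 4 ≤ 2 := by
        have h6 : Real.log 4 = 2 * Real.log 2 := by
          rw [show (4 : ℝ) = 2 ^ 2 by norm_num, Real.log_pow]
          norm_num
        have := Real.log_two_lt_d9
        rw [h6]
        linarith
      linarith
    have hR : ∀ h : ℕ, R (n + v) h = avg (fun v => pc (n + v)) v h * Real.log ((n + v : ℕ) : ℝ) := by
      intro h
      unfold R avg
      rw [add_assoc n v h]
      ring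
    rw [hR, hR, ← sub_mul, abs_mul, abs_of_pos hlog0] at e4
    rw [div_le_iff₀ (by linarith)]
    refine e4.trans ?_
    exact mul_le_mul_of_nonneg_left hlog1 (abs_nonneg _)

open Classical in
/-- one row -/
theorem row {C : ℝ} (hJ : ∀ (G : ℕ → ℝ), Monotone G → ∀ b r : ℕ, b ≤ r →
    ∀ lam : ℝ, 0 < lam → ∀ N : ℕ → ℕ,
      (∀ n < 2 ^ r, Jumps (avg G n) (2 ^ b) (2 ^ r) lam (N n)) →
        lam ^ 2 * ∑ n ∈ range (2 ^ r), (N n : ℝ) ≤ C * En G b (r + 1))
    {X n b r K : ℕ} {lam : ℝ} (hL2 : 2 ≤ Real.log X) (hXn : X < n) (hn3 : n < 3 * X)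
    (hrX : 2 ^ r ≤ X) (hb : ((2 : ℝ) ^ b) ≤ Real.log X) (hbr : b ≤ r) (hlam : 0 < lam) :
    (lam / (2 * Real.log X)) ^ 2 * (K *
      (((range (2 ^ r)).filter (fun v => Changes (n + v) (Real.log X) (2 ^ r) lam K)).card : ℝ)) ≤
      C * En (fun v => pc (n + v)) b (r + 1) := by
  have h := hJ (fun v => pc (n + v)) (fun a b hab => pc_mono (by omega)) b r hbr
    (lam / (2 * Real.log X)) (by positivity)
    (fun v => if Changes (n + v) (Real.log X) (2 ^ r) lam K then K else 0) (by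
      intro v hv
      split_ifs with hc
      · exact jumps_of hL2 hXn hn3 hrX hv hb hc
      · exact ⟨fun _ => 0, fun _ => 0, fun i hi => absurd hi (by omega), fun i hi => absurd hi (by omega)⟩)
  refine le_trans (le_of_eq ?_) h
  congr 1
  rw [Finset.card_filter]
  push_cast
  rw [mul_sum]
  refine sum_congr rfl fun v _ => ?_
  split_ifs <;> simp

end JR

open JR in
open Pool.Agent.N610.JV (S blk avg Jumps En S_JUMP) in
theorem t_JR (h : S_SM) : S_JR := by
  classical
  obtain ⟨C, hC, hJ⟩ := jump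
  obtain ⟨C2, hC2, hSM⟩ := h
  refine ⟨128 * C * C2, by positivity, ?_⟩
  filter_upwards [hSM, eventually_ge_atTop 8] with X hSMX hX8 W w hw r hr1 hr2 lam hlam K hK
  have hX8' : (8 : ℝ) ≤ X := by exact_mod_cast hX8
  obtain ⟨L, hL⟩ : ∃ L, L = Real.log X := ⟨_, rfl⟩
  have hL2 : 2 ≤ L := by
    have h1 : Real.log 8 ≤ Real.log X := Real.log_le_log (by norm_num) hX8'
    have h2 : Real.log 8 = 3 * Real.log 2 := by
      rw [show (8 : ℝ) = 2 ^ 3 by norm_num, Real.log_pow]
      norm_num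
    have := Real.log_two_gt_d9
    rw [hL]
    linarith
  have hfl : 1 ≤ ⌊L⌋₊ := Nat.le_floor (by push_cast; linarith)
  obtain ⟨b, hb⟩ : ∃ b, b = Nat.log 2 ⌊L⌋₊ := ⟨_, rfl⟩
  have hb1 : (2 : ℝ) ^ b ≤ L := by
    have h1 : 2 ^ b ≤ ⌊L⌋₊ := by
      rw [hb]
      exact Nat.pow_log_le_self 2 (by omega)
    have h2 : ((2 ^ b : ℕ) : ℝ) ≤ (⌊L⌋₊ : ℝ) := by exact_mod_cast h1
    push_cast at h2
    exact h2.trans (Nat.floor_le (by linarith))
  have hb2 : L ≤ 2 * (2 : ℝ) ^ b := by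
    have h1 : ⌊L⌋₊ + 1 ≤ 2 ^ (b + 1) := by
      rw [hb]
      exact Nat.lt_pow_succ_log_self (by norm_num) _
    have h2 : ((⌊L⌋₊ + 1 : ℕ) : ℝ) ≤ ((2 ^ (b + 1) : ℕ) : ℝ) := by exact_mod_cast h1
    push_cast at h2
    have h3 := Nat.lt_floor_add_one L
    rw [pow_succ] at h2
    linarith
  have hbr : b ≤ r := by
    have h1 : (2 : ℝ) ^ b ≤ 2 ^ r := hb1.trans (by rw [hL]; exact hr1)
    exact (pow_le_pow_iff_right₀ (by norm_num : (1 : ℝ) < 2)).1 h1
  -- the energy
  have hq : ∀ q : ℕ, ∑ n ∈ Icc 1 (3 * X), w n * S (fun v => pc (n + v)) b q ^ 2 ≤ 4 * C2 := by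
    intro q
    have h1 := hSMX W w hw (q * 2 ^ b) (2 ^ (b + 1)) (by
      rw [← hL]
      push_cast
      rw [pow_succ]
      linarith)
    have h2 : C2 * (((2 ^ (b + 1) : ℕ) : ℝ) / Real.log X) ^ 2 ≤ 4 * C2 := by
      rw [← hL]
      push_cast
      have h3 : (2 : ℝ) ^ (b + 1) / L ≤ 2 := by
        rw [div_le_iff₀ (by linarith), pow_succ]
        linarith
      have h4 : 0 ≤ (2 : ℝ) ^ (b + 1) / L := by positivity
      have h5 : ((2 : ℝ) ^ (b + 1) / L) ^ 2 ≤ 2 ^ 2 := pow_le_pow_left₀ h4 h3 2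
      nlinarith
    refine le_trans ?_ (h1.trans h2)
    refine sum_le_sum fun n _ => ?_
    refine mul_le_mul_of_nonneg_left ?_ (hw.nonneg n)
    have h3 : 0 ≤ S (fun v => pc (n + v)) b q := by
      unfold S
      refine sub_nonneg.2 (pc_mono ?_)
      exact Nat.add_le_add_left (Nat.mul_le_mul_right _ (by omega)) _
    refine pow_le_pow_left₀ h3 ?_ 2
    unfold S
    have h4 : pc (n + (q + 1) * 2 ^ b) ≤ pc (n + q * 2 ^ b + 2 ^ (b + 1)) := by
      refine pc_mono ?_
      rw [pow_succ, Nat.succ_mul]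
      omega
    linarith
  have hE : ∑ n ∈ Icc 1 (3 * X), w n * En (fun v => pc (n + v)) b (r + 1) ≤
      32 * C2 * 2 ^ r / L ^ 2 := by
    have h1 : ∀ n, w n * En (fun v => pc (n + v)) b (r + 1) =
        ∑ q ∈ range (2 ^ (r + 1 - b)), w n * S (fun v => pc (n + v)) b q ^ 2 / 2 ^ b := by
      intro n
      rw [En_eq _ _ _ (by omega), mul_sum]
      refine sum_congr rfl fun q _ => ?_
      ring
    rw [sum_congr rfl fun n _ => h1 n, sum_comm]
    have h2 : ∀ q ∈ range (2 ^ (r + 1 - b)), ∑ n ∈ Icc 1 (3 * X),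
        w n * S (fun v => pc (n + v)) b q ^ 2 / 2 ^ b ≤ 4 * C2 / 2 ^ b := by
      intro q _
      rw [← sum_div]
      refine div_le_div_of_nonneg_right ?_ (by positivity)
      exact hq q
    refine (sum_le_sum h2).trans ?_
    rw [sum_const, card_range, nsmul_eq_mul]
    push_cast
    have h3 : (2 : ℝ) ^ (r + 1 - b) = 2 * 2 ^ r / 2 ^ b := by
      rw [eq_div_iff (by positivity), ← pow_add, show r + 1 - b + b = r + 1 by omega, pow_succ]
      ring
    rw [h3]
    have hB : (0 : ℝ) < 2 ^ b := by positivity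
    have hL0 : 0 < L := by linarith
    have h4 : L ^ 2 ≤ 4 * (2 ^ b) ^ 2 := by nlinarith
    rw [div_mul_div_comm, div_le_div_iff₀ (by positivity) (by positivity)]
    have h5 : 0 ≤ 2 * (2 : ℝ) ^ r * (4 * C2) := by positivity
    have h6 := mul_le_mul_of_nonneg_left h4 h5
    nlinarith
  -- the sum over the rows
  set card : ℕ → ℝ := fun n =>
    (((range (2 ^ r)).filter (fun v => Changes (n + v) (Real.log X) (2 ^ r) lam K)).card : ℝ)
    with hcard
  have hrX : 2 ^ r ≤ X := hr2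
  have hsum : (lam / (2 * L)) ^ 2 * (K * ∑ n ∈ Icc 1 (3 * X), w n * card n) ≤
      C * ∑ n ∈ Icc 1 (3 * X), w n * En (fun v => pc (n + v)) b (r + 1) := by
    rw [mul_sum, mul_sum, mul_sum]
    refine sum_le_sum fun n _ => ?_
    rcases eq_or_ne (w n) 0 with h0 | h0
    · rw [h0]
      simp
    · obtain ⟨e1, e2, -⟩ := hw.supp n h0
      have h1 := row hJ (K := K) (by rw [← hL]; exact hL2) e1 e2 hrX (by rw [← hL]; exact hb1) hbr
        hlam
      rw [← hL] at h1
      have h2 := mul_le_mul_of_nonneg_left h1 (hw.nonneg n)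
      calc (lam / (2 * L)) ^ 2 * (K * (w n * card n))
          = w n * ((lam / (2 * L)) ^ 2 * (K * card n)) := by ring
        _ ≤ w n * (C * En (fun v => pc (n + v)) b (r + 1)) := by
            rw [hcard]
            simpa only [← hL] using h2
        _ = _ := by ring
  have hL0 : 0 < L := by linarith
  have hK0 : (0 : ℝ) < K := by exact_mod_cast hK
  have h1 := hsum.trans (mul_le_mul_of_nonneg_left hE hC.le)
  rw [le_div_iff₀ (by positivity)]
  set A := ∑ n ∈ Icc 1 (3 * X), w n * card n with hA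
  have h2 : (lam / (2 * L)) ^ 2 * (K * A) = (A * (lam ^ 2 * K)) / (4 * L ^ 2) := by
    field_simp
    ring
  have h3 : C * (32 * C2 * 2 ^ r / L ^ 2) = (128 * C * C2 * 2 ^ r) / (4 * L ^ 2) := by
    field_simp
    ring
  rw [h2, h3] at h1
  exact (div_le_div_iff_of_pos_right (by positivity)).1 h1

end Pool.Agent.N610.PL
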