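import Pool.Agent.N610.PL.Stm
import Pool.Agent.N610.MS.MAIN

set_option autoImplicit false

/-!
# Maier's theorem for the weights of project PL (helper610)
-/

namespace Pool.Agent.N610.PL

open Finset Filter
open Pool.Agent.H378R2 (WW PW GoodS)

namespace MAI

lemma R_eq (n T : ℕ) : MS.R n T = R n T := by
  unfold MS.R R pc
  have h1 : ⌊((n : ℝ) + (T : ℝ))⌋₊ = n + T := by
    rw [← Nat.cast_add]
    exact Nat.floor_natCast _
  rw [h1, Nat.floor_natCast, div_div_eq_mul_div]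

end MAI

theorem t_MAI (h1 : MS.S_CNT) (h2 : MS.S_ROWS) : S_MAI := by
  intro a ha σ hσ
  obtain ⟨κ, hκ, hcnt⟩ := h1 a 1 ha one_pos
  obtain ⟨δ, hδ, hδ1, hc⟩ := hcnt 1 σ one_pos hσ
  refine ⟨κ, δ, hκ, hδ, hδ1, fun ε hε => ?_⟩
  have hr := h2 1 (δ / 8) (by positivity)
  have hL : Tendsto (fun X : ℝ => 1 / Real.log X) atTop (nhds 0) := by
    simp only [one_div]
    exact Real.tendsto_log_atTop.inv_tendsto_atTop
  have hX10 : Tendsto (fun X : ℝ => X ^ (-(1 / 10) : ℝ)) atTop (nhds 0) :=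
    tendsto_rpow_neg_atTop (by norm_num)
  have hpow : ∀ᶠ X : ℝ in atTop, Real.log X ^ (a + κ) ≤ X ^ (9 / 10 : ℝ) := by
    have := (isLittleO_log_rpow_rpow_atTop (a + κ) (show (0 : ℝ) < 9 / 10 by norm_num)).bound
      (show (0 : ℝ) < 1 by norm_num)
    filter_upwards [this, eventually_ge_atTop (1 : ℝ)] with X hX hX1
    have hl : 0 ≤ Real.log X := Real.log_nonneg hX1
    rw [one_mul, Real.norm_of_nonneg (Real.rpow_nonneg hl _),
      Real.norm_of_nonneg (Real.rpow_nonneg (by linarith) _)] at hX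
    exact hX
  have hmin : 0 < min ε (1 / 2) := lt_min hε (by norm_num)
  have hall := (((((hc (min ε (1 / 2)) hmin).and hr).and
    (hL.eventually_le_const (show (0 : ℝ) < δ / 4 by positivity))).and
    (hX10.eventually_le_const (show (0 : ℝ) < δ / 4 by positivity))).and hpow).and
    (eventually_gt_atTop (Real.exp 1))
  filter_upwards [tendsto_natCast_atTop_atTop.eventually hall] with X hX
  obtain ⟨⟨⟨⟨⟨hcX, hrX⟩, hLX⟩, hX10X⟩, hpowX⟩, hXe⟩ := hX
  obtain ⟨ps, S, hS, hrow⟩ := hrX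
  obtain ⟨P, hP, hPX, hPB, hc1, -, -⟩ := hcX S ps hS
  obtain ⟨w, ρ, hρ, hw, hwn, hws, hwm⟩ := hrow P hP hPB
  have hXe1 : (1 : ℝ) < X := by
    have := Real.add_one_le_exp (1 : ℝ)
    linarith
  have hlog : 1 < Real.log X := by
    rw [Real.lt_log_iff_exp_lt (by linarith)]
    exact hXe
  have hfl : ⌊3 * (X : ℝ)⌋₊ = 3 * X := by
    have : (3 * (X : ℝ)) = ((3 * X : ℕ) : ℝ) := by push_cast; ring
    rw [this, Nat.floor_natCast]
  have hprime : ∀ p ∈ P, p.Prime := by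
    intro p hp
    have h3 := hP hp
    rw [Pool.Agent.H378R2.PW, Finset.mem_filter] at h3
    exact h3.2.1
  have hW : 0 < ∏ p ∈ P, p := Finset.prod_pos fun p hp => (hprime p hp).pos
  have hkey : ∀ y : ℝ, 0 < y → y ≤ (X : ℝ) ^ (9 / 10 : ℝ) →
      |∑ n ∈ Icc 1 ⌊3 * (X : ℝ)⌋₊, w n * MS.R n y - MS.rel P y| ≤ δ := by
    intro y hy hyX
    have h4 := MS.MAIN.key (X := X) (L := Real.log X) (ρ := ρ) (ε' := δ / 8) (P := P) (w := w)
      (y := y) hXe1.le (by linarith) rfl hPB hρ (fun n => (hw n).1) (fun n hn => (hwn n hn).1) hws hy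
      hyX (by
        have h5 : ((⌊y⌋₊ : ℕ) : ℝ) ≤ (X : ℝ) ^ (9 / 10 : ℝ) := (Nat.floor_le hy.le).trans hyX
        have h6 := hwm ⌊y⌋₊ h5
        rwa [pow_one] at h6)
    linarith
  have hσa : ∀ z : ℝ, |σ * z| = |z| := by
    intro z
    rcases hσ with h | h <;> rw [h] <;> simp
  refine ⟨∏ p ∈ P, p, w, ⟨hW, ?_, ?_, fun n => (hw n).1, fun n => (hw n).2, ?_, ?_⟩, ?_, ?_⟩
  · exact hPX.trans (Real.rpow_le_rpow_of_exponent_le hXe1.le (min_le_right _ _))
  · rw [Nat.primeFactors_prod hprime]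
    exact hPB
  · intro n hn
    obtain ⟨h3, h4, h5⟩ := hwn n hn
    exact ⟨by exact_mod_cast h3, by exact_mod_cast h4, h5⟩
  · rw [← hfl]
    exact hws
  · exact hPX.trans (Real.rpow_le_rpow_of_exponent_le hXe1.le (min_le_left _ _))
  · intro T hT1 hT2
    have hT0 : (0 : ℝ) < T := lt_of_lt_of_le (Real.rpow_pos_of_pos (by linarith) _) hT1
    have h4 := hkey T hT0 (hT2.trans hpowX)
    have h5 := hc1 T hT1 hT2
    rw [← hσa] at h4
    have h6 := (abs_le.1 h4).1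
    have e : σ * (∑ n ∈ Icc 1 ⌊3 * (X : ℝ)⌋₊, w n * MS.R n T - 1) =
        σ * (∑ n ∈ Icc 1 ⌊3 * (X : ℝ)⌋₊, w n * MS.R n T - MS.rel P T) +
          σ * (MS.rel P T - 1) := by ring
    have e2 : ∑ n ∈ Icc 1 (3 * X), w n * R n T = ∑ n ∈ Icc 1 ⌊3 * (X : ℝ)⌋₊, w n * MS.R n T := by
      rw [hfl]
      refine Finset.sum_congr rfl fun n _ => ?_
      rw [MAI.R_eq]
    rw [e2, e]
    linarith

end Pool.Agent.N610.PL
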