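import Pool.Agent.N610.PL.Stm

set_option autoImplicit false

/-!
# Steady points have plateaus (helper610)
-/

namespace Pool.Agent.N610.PL

open Finset Filter

/-- A steady `x` has an interval of exponents on which `R(x, (log x) ^ t)` is constant up to `lam`. -/
theorem t_PLAT (A C : ℝ) (hA : 1 < A) (lam : ℝ) (hlam : 0 < lam) : ∃ κ : ℝ, 0 < κ ∧
    ∀ x : ℕ, 1 ≤ Real.log x → Steady A C x → ∃ t : ℝ, 1 ≤ t ∧ t + κ ≤ A ∧ ∀ h h' : ℕ,
      Real.log x ^ t ≤ h → (h : ℝ) ≤ Real.log x ^ (t + κ) → Real.log x ^ t ≤ h' →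
        (h' : ℝ) ≤ Real.log x ^ (t + κ) → |R x h - R x h'| < lam := by
  classical
  obtain ⟨m, hm⟩ : ∃ m : ℝ, m = min lam 1 := ⟨_, rfl⟩
  have hm0 : 0 < m := by rw [hm]; exact lt_min hlam one_pos
  have hm1 : m ≤ 1 := by rw [hm]; exact min_le_right _ _
  have hml : m ≤ lam := by rw [hm]; exact min_le_left _ _
  obtain ⟨K, hK⟩ : ∃ K : ℕ, K = ⌊C * (Real.log (2 / m) / m) ^ 2⌋₊ + 1 := ⟨_, rfl⟩
  have hKb : C * (Real.log (2 / m) / m) ^ 2 < K := by
    rw [hK]
    push_cast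
    exact Nat.lt_floor_add_one _
  have hK1 : (1 : ℝ) ≤ K := by
    rw [hK]
    push_cast
    have : (0 : ℝ) ≤ ⌊C * (Real.log (2 / m) / m) ^ 2⌋₊ := Nat.cast_nonneg _
    linarith
  obtain ⟨κ, hκ⟩ : ∃ κ : ℝ, κ = (A - 1) / K := ⟨_, rfl⟩
  have hκ0 : 0 < κ := by rw [hκ]; apply div_pos <;> linarith
  have hKκ : K * κ = A - 1 := by rw [hκ]; field_simp
  refine ⟨κ, hκ0, fun x hx hs => ?_⟩
  by_contra hcon
  push Not at hcon
  have hL0 : 0 < Real.log x := by linarith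
  have hex : ∀ i : ℕ, i < K → ∃ a b : ℕ, a < b ∧ Real.log x ^ (1 + i * κ) ≤ a ∧
      (b : ℝ) ≤ Real.log x ^ (1 + (i + 1 : ℕ) * κ) ∧ m ≤ |R x b - R x a| := by
    intro i hi
    have hi' : ((i : ℝ) + 1) ≤ K := by exact_mod_cast hi
    have h1 : (1 : ℝ) ≤ 1 + i * κ := by
      have : 0 ≤ (i : ℝ) * κ := by positivity
      linarith
    have h2 : 1 + i * κ + κ ≤ A := by nlinarith
    obtain ⟨h, h', ha, hb, ha', hb', hR⟩ := hcon (1 + i * κ) h1 h2
    have e : 1 + i * κ + κ = 1 + ((i + 1 : ℕ) : ℝ) * κ := by push_cast; ring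
    rw [e] at hb hb'
    have hR' : m ≤ |R x h - R x h'| := hml.trans hR
    rcases lt_trichotomy h h' with hlt | heq | hgt
    · exact ⟨h, h', hlt, ha, hb', by rw [abs_sub_comm]; exact hR'⟩
    · subst heq
      rw [sub_self, abs_zero] at hR'
      linarith
    · exact ⟨h', h, hgt, ha', hb, hR'⟩
  choose! s t hst using hex
  have hch : Changes x (Real.log x) (Real.log x ^ A) m K := by
    refine ⟨s, t, fun i hi => ?_, fun i hi => ?_⟩
    · obtain ⟨h1, h2, h3, h4⟩ := hst i hi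
      refine ⟨?_, h1, ?_, h4⟩
      · refine le_trans ?_ h2
        have : Real.log x ^ (1 : ℝ) ≤ Real.log x ^ (1 + i * κ) := by
          apply Real.rpow_le_rpow_of_exponent_le hx
          have : 0 ≤ (i : ℝ) * κ := by positivity
          linarith
        rwa [Real.rpow_one] at this
      · refine h3.trans (Real.rpow_le_rpow_of_exponent_le hx ?_)
        have hi' : (((i + 1 : ℕ) : ℝ)) ≤ K := by exact_mod_cast hi
        nlinarith
    · obtain ⟨-, -, h3, -⟩ := hst i (by omega)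
      obtain ⟨-, h2, -, -⟩ := hst (i + 1) hi
      exact_mod_cast h3.trans h2
  have := hs.2 m hm0 hm1 K hch
  linarith

end Pool.Agent.N610.PL
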