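import Pool.Agent.N610.PL.Stm

/-!
# Project PL (helper610), part POOR: a positive proportion of poor positions (helper654)
-/

set_option autoImplicit false

namespace Pool.Agent.N610.PL

open Finset Filter

namespace POOR

/-- the greedy lemma -/
lemma greedy (p : ℕ → ℝ) (hp : Monotone p) (γ : ℝ) (hγ : 0 ≤ γ) (M S : ℕ) (Gd : ℕ → Prop)
    [DecidablePred Gd]
    (h : ∀ x, x + S < M → ¬ Gd x → ∃ m, 1 ≤ m ∧ m ≤ S ∧ γ * m < p (x + m) - p x) :
    γ * ((M : ℝ) - S - (((range M).filter Gd).card : ℝ)) ≤ p M - p 0 := by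
  have key : ∀ j x : ℕ, x ≤ M → M - x ≤ j →
      γ * ((M : ℝ) - x - S - (((Ico x M).filter Gd).card : ℝ)) ≤ p M - p x := by
    intro j
    induction j with
    | zero =>
      intro x hx hj
      have hxM : x = M := by omega
      subst hxM
      have h1 : ((x : ℝ) - x - S - (((Ico x x).filter Gd).card : ℝ)) ≤ 0 := by
        have h2 : (0 : ℝ) ≤ (((Ico x x).filter Gd).card : ℝ) := Nat.cast_nonneg _
        have h3 : (0 : ℝ) ≤ (S : ℝ) := Nat.cast_nonneg _
        linarith
      have h4 := mul_nonpos_of_nonneg_of_nonpos hγ h1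
      linarith
    | succ j ih =>
      intro x hx hj
      by_cases hxS : x + S < M
      · by_cases hG : Gd x
        · have h1 := ih (x + 1) (by omega) (by omega)
          have h2 : ((Ico x M).filter Gd).card = ((Ico (x + 1) M).filter Gd).card + 1 := by
            rw [← Finset.insert_Ico_add_one_left_eq_Ico (by omega : x < M), Finset.filter_insert, if_pos hG,
              Finset.card_insert_of_notMem]
            intro hcon
            rw [Finset.mem_filter, Finset.mem_Ico] at hcon
            omega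
          have h3 : p x ≤ p (x + 1) := hp (by omega)
          rw [h2]
          push_cast at h1 ⊢
          have e : (M : ℝ) - x - S - ((((Ico (x + 1) M).filter Gd).card : ℝ) + 1) =
              (M : ℝ) - (x + 1) - S - (((Ico (x + 1) M).filter Gd).card : ℝ) := by ring
          rw [e]
          linarith
        · obtain ⟨m, hm1, hm2, hm3⟩ := h x hxS hG
          have h1 := ih (x + m) (by omega) (by omega)
          have h2 : ((Ico (x + m) M).filter Gd).card ≤ ((Ico x M).filter Gd).card := by
            apply Finset.card_le_card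
            apply Finset.filter_subset_filter
            exact Finset.Ico_subset_Ico (by omega) le_rfl
          have h2' : (((Ico (x + m) M).filter Gd).card : ℝ) ≤ (((Ico x M).filter Gd).card : ℝ) := by
            exact_mod_cast h2
          push_cast at h1
          have h3 : γ * ((M : ℝ) - x - S - (((Ico x M).filter Gd).card : ℝ)) ≤
              γ * ((M : ℝ) - x - S - (((Ico (x + m) M).filter Gd).card : ℝ)) :=
            mul_le_mul_of_nonneg_left (by linarith) hγ
          have e : γ * ((M : ℝ) - x - S - (((Ico (x + m) M).filter Gd).card : ℝ)) =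
              γ * ((M : ℝ) - (x + m) - S - (((Ico (x + m) M).filter Gd).card : ℝ)) + γ * m := by
            ring
          linarith
      · have h1 : ((M : ℝ) - x - S - (((Ico x M).filter Gd).card : ℝ)) ≤ 0 := by
          have h2 : (0 : ℝ) ≤ (((Ico x M).filter Gd).card : ℝ) := Nat.cast_nonneg _
          have h3 : (M : ℝ) ≤ x + S := by exact_mod_cast (not_lt.1 hxS)
          linarith
        have h4 : p x ≤ p M := hp hx
        have h5 := mul_nonpos_of_nonneg_of_nonpos hγ h1
        linarith
  have h1 := key M 0 (Nat.zero_le _) (by omega)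
  rw [Nat.cast_zero, sub_zero, ← Finset.range_eq_Ico] at h1
  exact h1

lemma pc_mono : Monotone pc := by
  intro a b hab
  unfold pc
  exact_mod_cast Nat.monotone_primeCounting hab

/-- numerical conditions -/
lemma evt (A d B : ℝ) (hA : 1 ≤ A) (hd : 0 < d) : ∀ᶠ X : ℕ in atTop,
    16 / d ≤ Real.log X ∧ 2 ≤ Real.log X ∧ Real.log X ^ B ≤ X ∧
    (Real.log X + 2) ^ A + 1 ≤ d / 8 * Real.log X ^ (A + 2) := by
  have ht : Tendsto (fun X : ℕ => Real.log X) atTop atTop :=
    Real.tendsto_log_atTop.comp tendsto_natCast_atTop_atTop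
  have hB : ∀ᶠ X : ℕ in atTop, Real.log X ^ B ≤ X := by
    have h1 := (isLittleO_log_rpow_rpow_atTop B (one_pos : (0 : ℝ) < 1)).bound (one_pos : (0 : ℝ) < 1)
    have h2 := tendsto_natCast_atTop_atTop (R := ℝ) |>.eventually h1
    filter_upwards [h2] with X hX
    rw [Real.rpow_one, one_mul, Real.norm_eq_abs, Real.norm_eq_abs,
      abs_of_nonneg (Nat.cast_nonneg X : (0 : ℝ) ≤ (X : ℝ))] at hX
    exact (le_abs_self _).trans hX
  filter_upwards [ht.eventually_ge_atTop (16 / d), ht.eventually_ge_atTop 2, hB,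
    ht.eventually_ge_atTop (8 * ((2 : ℝ) ^ A + 1) / d)] with X h1 h2 h3 h4
  refine ⟨h1, h2, h3, ?_⟩
  set L := Real.log X with hL
  have hL0 : 0 < L := by linarith
  have hLA : 1 ≤ L ^ A := Real.one_le_rpow (by linarith) (by linarith)
  have h5 : (L + 2) ^ A ≤ (2 : ℝ) ^ A * L ^ A := by
    rw [← Real.mul_rpow (by norm_num) hL0.le]
    exact Real.rpow_le_rpow (by linarith) (by linarith) (by linarith)
  have h6 : L ^ (A + 2) = L ^ A * L ^ 2 := by
    rw [Real.rpow_add hL0]
    norm_num
  have h7 : (2 : ℝ) ^ A + 1 ≤ d / 8 * L ^ 2 := by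
    rw [div_le_iff₀ hd] at h4
    have h8 : L ≤ L ^ 2 := by nlinarith
    have h9 : d * L ≤ d * L ^ 2 := mul_le_mul_of_nonneg_left h8 hd.le
    nlinarith
  rw [h6]
  calc (L + 2) ^ A + 1 ≤ (2 : ℝ) ^ A * L ^ A + L ^ A := by linarith
    _ = ((2 : ℝ) ^ A + 1) * L ^ A := by ring
    _ ≤ (d / 8 * L ^ 2) * L ^ A := mul_le_mul_of_nonneg_right h7 (by linarith)
    _ = d / 8 * (L ^ A * L ^ 2) := by ring

end POOR

open POOR in
open Classical in
theorem t_POOR : S_POOR := by
  intro A d B hA hd hd1
  filter_upwards [evt A d B hA hd] with X hX W w hR T hT1 hT2 hsum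
  obtain ⟨hL1, hL2, hB, hbig⟩ := hX
  set L := Real.log X with hL
  have hL0 : 0 < L := by linarith
  have hTX : (T : ℝ) ≤ X := hT2.trans hB
  have hT0 : 0 < (T : ℝ) := lt_of_lt_of_le (Real.rpow_pos_of_pos hL0 _) hT1
  set S := ⌈(L + 2) ^ A⌉₊ with hS
  have hS1 : (L + 2) ^ A ≤ S := Nat.le_ceil _
  have hS2 : (S : ℝ) < (L + 2) ^ A + 1 := Nat.ceil_lt_add_one (Real.rpow_nonneg (by linarith) _)
  have hST : (S : ℝ) ≤ d / 8 * T := by
    have h1 : d / 8 * L ^ (A + 2) ≤ d / 8 * T := mul_le_mul_of_nonneg_left hT1 (by linarith)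
    linarith
  set γ := (1 - d / 2) / (L + 2) with hγ
  have hγ0 : 0 < γ := div_pos (by linarith) (by linarith)
  have hγL : γ * (L + 2) = 1 - d / 2 := div_mul_cancel₀ _ (by linarith)
  -- good positions
  set Gd : ℕ → ℕ → Prop := fun n v => ∀ m : ℕ, 1 ≤ m → m ≤ S →
    pc (n + v + m) - pc (n + v) ≤ γ * m with hGd
  have hg : ∀ n, γ * ((T : ℝ) - S - (((range T).filter (Gd n)).card : ℝ)) ≤
      pc (n + T) - pc n := by
    intro n
    have h1 := greedy (fun v => pc (n + v)) (fun a b hab => pc_mono (by omega)) γ hγ0.le T S (Gd n)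
      (by
        intro x _ hx
        simp only [hGd] at hx
        push Not at hx
        obtain ⟨m, h1, h2, h3⟩ := hx
        exact ⟨m, h1, h2, by rw [← add_assoc]; exact h3⟩)
    simpa using h1
  -- each row
  have hrow : ∀ n, w n * (γ * ((T : ℝ) - S - (((range T).filter (Gd n)).card : ℝ))) ≤
      w n * (R n T * (T / L)) := by
    intro n
    rcases eq_or_ne (w n) 0 with hw | hw
    · rw [hw, zero_mul, zero_mul]
    · obtain ⟨h1, -, -⟩ := hR.supp n hw
      refine mul_le_mul_of_nonneg_left ((hg n).trans ?_) (hR.nonneg n)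
      have hXn : (X : ℝ) ≤ n := by exact_mod_cast h1.le
      have hX0 : (0 : ℝ) < X := by
        by_contra hcon
        have h3 : (X : ℝ) = 0 := le_antisymm (not_lt.1 hcon) (Nat.cast_nonneg _)
        rw [hL, h3, Real.log_zero] at hL0
        exact lt_irrefl _ hL0
      have hlog : L ≤ Real.log n := Real.log_le_log hX0 hXn
      have h2 : 0 ≤ pc (n + T) - pc n := sub_nonneg.2 (pc_mono (by omega))
      have e : R n T * (T / L) = (pc (n + T) - pc n) * (Real.log n / L) := by
        unfold R
        field_simp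
      rw [e]
      have h3 : 1 ≤ Real.log n / L := by
        rw [le_div_iff₀ hL0]
        linarith
      nlinarith
  -- sum over the rows
  have hsum2 : γ * ((T : ℝ) - S - ∑ n ∈ Icc 1 (3 * X), w n * (((range T).filter (Gd n)).card : ℝ)) ≤
      (1 - d) * (T / L) := by
    have h1 : γ * ((T : ℝ) - S - ∑ n ∈ Icc 1 (3 * X), w n * (((range T).filter (Gd n)).card : ℝ)) =
        ∑ n ∈ Icc 1 (3 * X), w n * (γ * ((T : ℝ) - S - (((range T).filter (Gd n)).card : ℝ))) := by
      have e1 : ∀ n, w n * (γ * ((T : ℝ) - S - (((range T).filter (Gd n)).card : ℝ))) =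
          w n * (γ * ((T : ℝ) - S)) - γ * (w n * (((range T).filter (Gd n)).card : ℝ)) := by
        intro n
        ring
      rw [Finset.sum_congr rfl (fun n _ => e1 n), Finset.sum_sub_distrib, ← Finset.sum_mul, hR.sum,
        ← Finset.mul_sum]
      ring
    rw [h1]
    refine (Finset.sum_le_sum fun n _ => hrow n).trans ?_
    have e2 : ∀ n, w n * (R n T * (T / L)) = (w n * R n T) * (T / L) := fun n => by ring
    rw [Finset.sum_congr rfl (fun n _ => e2 n), ← Finset.sum_mul]
    exact mul_le_mul_of_nonneg_right hsum (by positivity)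
  set G := ∑ n ∈ Icc 1 (3 * X), w n * (((range T).filter (Gd n)).card : ℝ) with hG
  have hGlow : d / 4 * T ≤ G := by
    -- multiply by `L + 2`
    have h1 : (1 - d / 2) * ((T : ℝ) - S - G) ≤ (1 - d) * (T / L) * (L + 2) := by
      have h2 := mul_le_mul_of_nonneg_right hsum2 (by linarith : (0 : ℝ) ≤ L + 2)
      calc (1 - d / 2) * ((T : ℝ) - S - G) = γ * ((T : ℝ) - S - G) * (L + 2) := by
            rw [← hγL]; ring
        _ ≤ _ := h2
    have h3 : (1 - d) * (T / L) * (L + 2) = (1 - d) * (T * (1 + 2 / L)) := by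
      field_simp
    have h4 : (1 - d) * (T * (1 + 2 / L)) ≤ (1 - d / 2) ^ 2 * (T * (1 + 2 / L)) := by
      refine mul_le_mul_of_nonneg_right ?_ (by positivity)
      nlinarith [sq_nonneg d]
    have h5 : (1 - d / 2) * ((T : ℝ) - S - G) ≤ (1 - d / 2) * ((1 - d / 2) * (T * (1 + 2 / L))) := by
      rw [h3] at h1
      refine (h1.trans h4).trans (le_of_eq (by ring))
    have h6 : (T : ℝ) - S - G ≤ (1 - d / 2) * (T * (1 + 2 / L)) :=
      le_of_mul_le_mul_left h5 (by linarith)
    have h7 : 2 / L ≤ d / 8 := by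
      rw [div_le_iff₀ hL0]
      rw [div_le_iff₀ hd] at hL1
      linarith
    have h8 : (T : ℝ) * (1 + 2 / L) ≤ T * (1 + d / 8) :=
      mul_le_mul_of_nonneg_left (by linarith) hT0.le
    have h9 : (1 - d / 2) * (T * (1 + 2 / L)) ≤ (1 - d / 2) * (T * (1 + d / 8)) :=
      mul_le_mul_of_nonneg_left h8 (by linarith)
    nlinarith [mul_nonneg hd.le hT0.le, mul_nonneg (mul_nonneg hd.le hd.le) hT0.le]
  refine hGlow.trans ?_
  rw [hG]
  refine Finset.sum_le_sum fun n _ => ?_
  rcases eq_or_ne (w n) 0 with hw | hw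
  · rw [hw, zero_mul, zero_mul]
  · obtain ⟨h1, h2, -⟩ := hR.supp n hw
    refine mul_le_mul_of_nonneg_left ?_ (hR.nonneg n)
    have h3 : ((range T).filter (Gd n)).card ≤ ((range T).filter (fun v => ∀ h : ℕ, 1 ≤ h →
        (h : ℝ) ≤ Real.log (n + v : ℕ) ^ A → R (n + v) h ≤ 1 - d / 2)).card := by
      apply Finset.card_le_card
      intro v hv
      rw [Finset.mem_filter] at hv ⊢
      refine ⟨hv.1, ?_⟩
      intro h hh1 hh2
      have hvT := Finset.mem_range.1 hv.1
      have hn1 : (1 : ℝ) ≤ ((n + v : ℕ) : ℝ) := by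
        exact_mod_cast (by omega : 1 ≤ n + v)
      have hlog0 : 0 ≤ Real.log ((n + v : ℕ) : ℝ) := Real.log_nonneg hn1
      have hX0 : (0 : ℝ) < X := by
        by_contra hcon
        have h3 : (X : ℝ) = 0 := le_antisymm (not_lt.1 hcon) (Nat.cast_nonneg _)
        rw [hL, h3, Real.log_zero] at hL0
        exact lt_irrefl _ hL0
      have hlog1 : Real.log ((n + v : ℕ) : ℝ) ≤ L + 2 := by
        have h4 : ((n + v : ℕ) : ℝ) ≤ 4 * X := by
          have h5 : (n : ℝ) ≤ 3 * X := by exact_mod_cast h2.le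
          have h6 : (v : ℝ) ≤ T := by exact_mod_cast hvT.le
          push_cast
          linarith
        have h5 := Real.log_le_log (by linarith) h4
        rw [Real.log_mul (by norm_num) hX0.ne'] at h5
        have h6 : Real.log 4 ≤ 2 := by
          have h7 : Real.log 4 = 2 * Real.log 2 := by
            rw [show (4 : ℝ) = 2 ^ 2 by norm_num, Real.log_pow]
            norm_num
          have h8 := Real.log_two_lt_d9
          linarith
        linarith
      have hhS : h ≤ S := by
        have h4 : Real.log ((n + v : ℕ) : ℝ) ^ A ≤ (L + 2) ^ A :=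
          Real.rpow_le_rpow hlog0 hlog1 (by linarith)
        exact_mod_cast (hh2.trans h4).trans hS1
      have h4 := hv.2 h hh1 hhS
      have hh0 : (0 : ℝ) < h := by exact_mod_cast hh1
      unfold R
      rw [div_le_iff₀ hh0]
      calc (pc (n + v + h) - pc (n + v)) * Real.log ((n + v : ℕ) : ℝ)
          ≤ (γ * h) * Real.log ((n + v : ℕ) : ℝ) := mul_le_mul_of_nonneg_right h4 hlog0
        _ ≤ (γ * h) * (L + 2) := mul_le_mul_of_nonneg_left hlog1 (by positivity)
        _ = (1 - d / 2) * h := by rw [← hγL]; ring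
    exact_mod_cast h3

end Pool.Agent.N610.PL
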