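import Mathlib
import Pool.Agent.N610.PL.Stm

/-!
Project PL, subtask PL/RICH (helper531): a positive proportion of rich positions.
-/

set_option autoImplicit false

namespace Pool.Agent.N610.PL

namespace RICH

open Finset Filter

theorem pc_mono : Monotone pc := by
  intro a b h
  unfold pc
  exact_mod_cast Nat.monotone_primeCounting h

theorem pc_add_le (a k : ℕ) : pc (a + k) ≤ pc a + k := by
  unfold pc Nat.primeCounting Nat.primeCounting'
  have h : Nat.count Nat.Prime (a + k + 1) ≤ Nat.count Nat.Prime (a + 1) + k := by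
    have h1 : a + k + 1 = (a + 1) + k := by ring
    rw [h1, Nat.count_add]
    have := Nat.count_le (p := fun j => Nat.Prime (a + 1 + j)) (n := k)
    omega
  exact_mod_cast h

theorem greedy_aux (p : ℕ → ℝ) (hm : Monotone p) {α : ℝ} (S Q : ℕ) (G : ℕ → Prop)
    [DecidablePred G] (hα : 0 ≤ α)
    (hbad : ∀ q, q + S < Q → ¬ G q → ∃ m : ℕ, 1 ≤ m ∧ m ≤ S ∧ p (q + m) - p q < α * m) :
    ∀ k x : ℕ, x + k = Q → p Q - p x ≤ α * k +
      ∑ q ∈ (Ico x Q).filter (fun q => G q ∨ Q ≤ q + S), (p (q + 1) - p q) := by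
  intro k
  induction k using Nat.strong_induction_on with
  | _ k ih =>
    intro x hx
    have hnn : ∀ q, 0 ≤ p (q + 1) - p q := fun q => sub_nonneg.2 (hm (Nat.le_succ q))
    rcases Nat.eq_zero_or_pos k with rfl | hk
    · have : x = Q := by omega
      subst this
      simp
    · by_cases hg : G x ∨ Q ≤ x + S
      · have h1 := ih (k - 1) (by omega) (x + 1) (by omega)
        have h2 : Ico x Q = insert x (Ico (x + 1) Q) := by
          ext j; simp only [mem_Ico, mem_insert]; omega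
        rw [h2, filter_insert, if_pos hg, sum_insert (by simp)]
        have h3 : ((k - 1 : ℕ) : ℝ) = k - 1 := by rw [Nat.cast_sub hk]; simp
        rw [h3] at h1
        nlinarith
      · rw [not_or] at hg
        obtain ⟨m, hm1, hm2, hm3⟩ := hbad x (by omega) hg.1
        have h1 := ih (k - m) (by omega) (x + m) (by omega)
        have h2 : ∑ q ∈ (Ico (x + m) Q).filter (fun q => G q ∨ Q ≤ q + S), (p (q + 1) - p q) ≤
            ∑ q ∈ (Ico x Q).filter (fun q => G q ∨ Q ≤ q + S), (p (q + 1) - p q) := by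
          apply sum_le_sum_of_subset_of_nonneg
          · apply filter_subset_filter
            apply Ico_subset_Ico_left; omega
          · intro q _ _; exact hnn q
        have h3 : ((k - m : ℕ) : ℝ) = k - m := by rw [Nat.cast_sub (by omega)]
        rw [h3] at h1
        nlinarith

/-- good positions of the grid -/
def Gd (D S : ℕ) (α : ℝ) (n q : ℕ) : Prop :=
  ∀ m : ℕ, 1 ≤ m → m ≤ S → α * m ≤ pc (n + (q + m) * D) - pc (n + q * D)

open Classical in
theorem row (D S Q n : ℕ) {α s : ℝ} (hα : 0 ≤ α) (hs : 0 < s) :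
    pc (n + Q * D) - pc n ≤ α * Q +
      (1 / (2 * s)) * (((range Q).filter (fun q => Gd D S α n q ∨ Q ≤ q + S)).card : ℝ) +
      (s / 2) * ∑ q ∈ range Q, (pc (n + q * D + D) - pc (n + q * D)) ^ 2 := by
  have hm : Monotone (fun q => pc (n + q * D)) := by
    intro a b h
    apply pc_mono
    have := Nat.mul_le_mul_right D h
    omega
  have h1 := greedy_aux (fun q => pc (n + q * D)) hm S Q (Gd D S α n) hα (by
    intro q _ hq
    unfold Gd at hq
    push Not at hq
    exact hq) Q 0 (by omega)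
  simp only [zero_mul, add_zero] at h1
  have h2 : ∑ q ∈ (Ico 0 Q).filter (fun q => Gd D S α n q ∨ Q ≤ q + S),
      (pc (n + (q + 1) * D) - pc (n + q * D)) ≤
      (1 / (2 * s)) * (((range Q).filter (fun q => Gd D S α n q ∨ Q ≤ q + S)).card : ℝ) +
      (s / 2) * ∑ q ∈ range Q, (pc (n + q * D + D) - pc (n + q * D)) ^ 2 := by
    rw [← Finset.range_eq_Ico]
    have h3 : ∀ g : ℝ, g ≤ 1 / (2 * s) + s / 2 * g ^ 2 := by
      intro g
      have h4 : 1 / (2 * s) + s / 2 * g ^ 2 - g = (1 - s * g) ^ 2 / (2 * s) := by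
        field_simp; ring
      have h5 : 0 ≤ (1 - s * g) ^ 2 / (2 * s) := by positivity
      linarith
    calc ∑ q ∈ (range Q).filter (fun q => Gd D S α n q ∨ Q ≤ q + S),
      (pc (n + (q + 1) * D) - pc (n + q * D))
        ≤ ∑ q ∈ (range Q).filter (fun q => Gd D S α n q ∨ Q ≤ q + S),
          (1 / (2 * s) + s / 2 * (pc (n + q * D + D) - pc (n + q * D)) ^ 2) := by
          apply sum_le_sum
          intro q _
          have h6 : n + (q + 1) * D = n + q * D + D := by ring
          rw [h6]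
          exact h3 _
      _ = (1 / (2 * s)) * (((range Q).filter (fun q => Gd D S α n q ∨ Q ≤ q + S)).card : ℝ) +
          (s / 2) * ∑ q ∈ (range Q).filter (fun q => Gd D S α n q ∨ Q ≤ q + S),
            (pc (n + q * D + D) - pc (n + q * D)) ^ 2 := by
          rw [sum_add_distrib, sum_const, nsmul_eq_mul, mul_sum]
          ring
      _ ≤ _ := by
          have h7 : ∑ q ∈ (range Q).filter (fun q => Gd D S α n q ∨ Q ≤ q + S),
              (pc (n + q * D + D) - pc (n + q * D)) ^ 2 ≤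
              ∑ q ∈ range Q, (pc (n + q * D + D) - pc (n + q * D)) ^ 2 := by
            apply sum_le_sum_of_subset_of_nonneg (filter_subset _ _)
            intro q _ _
            positivity
          have h8 := mul_le_mul_of_nonneg_left h7 (by positivity : 0 ≤ s / 2)
          linarith
  linarith

theorem card_E (Q S : ℕ) (G : ℕ → Prop) [DecidablePred G] :
    ((range Q).filter (fun q => G q ∨ Q ≤ q + S)).card ≤
      ((range Q).filter (fun q => 1 ≤ q ∧ G q)).card + (S + 1) := by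
  have h : (range Q).filter (fun q => G q ∨ Q ≤ q + S) ⊆
      (range Q).filter (fun q => 1 ≤ q ∧ G q) ∪ (Ico (Q - S) Q ∪ {0}) := by
    intro q hq
    simp only [mem_filter, mem_range, mem_union, mem_Ico, mem_singleton] at hq ⊢
    by_cases h0 : q = 0
    · right; right; exact h0
    · rcases hq.2 with h1 | h1
      · left; exact ⟨hq.1, by omega, h1⟩
      · right; left; omega
  refine (card_le_card h).trans ((card_union_le _ _).trans ?_)
  have h1 := card_union_le (Ico (Q - S) Q) {0}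
  rw [Nat.card_Ico, card_singleton] at h1
  omega

theorem cover (D Q T : ℕ) (F : Finset ℕ) (hF : ∀ q ∈ F, 1 ≤ q ∧ q < Q) (hQ : Q * D ≤ T)
    (P : ℕ → Prop) [DecidablePred P]
    (h : ∀ q ∈ F, ∀ v, (q - 1) * D ≤ v → v < q * D → P v) :
    F.card * D ≤ ((range T).filter P).card := by
  have h1 : (F ×ˢ range D).card = F.card * D := by rw [card_product, card_range]
  rw [← h1]
  apply card_le_card_of_injOn (fun i => (i.1 - 1) * D + i.2)
  · rintro ⟨q, j⟩ hqj
    simp only [coe_product, Set.mem_prod, mem_coe, mem_range] at hqj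
    obtain ⟨hq, hj⟩ := hqj
    obtain ⟨h2, h3⟩ := hF q hq
    obtain ⟨k, rfl⟩ : ∃ k, q = k + 1 := ⟨q - 1, by omega⟩
    have h5 : (k + 1) * D = k * D + D := by ring
    have h6 : (k + 1) * D ≤ Q * D := Nat.mul_le_mul_right D (by omega)
    simp only [coe_filter, Set.mem_ofPred_eq, mem_range, Nat.add_sub_cancel]
    refine ⟨by omega, h (k + 1) hq _ ?_ ?_⟩
    · rw [Nat.add_sub_cancel]; omega
    · omega
  · rintro ⟨q, j⟩ hqj ⟨q', j'⟩ hqj' heq
    simp only [coe_product, Set.mem_prod, mem_coe, mem_range] at hqj hqj' heq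
    obtain ⟨hq, hj⟩ := hqj
    obtain ⟨hq', hj'⟩ := hqj'
    obtain ⟨h2, h3⟩ := hF q hq
    obtain ⟨h2', h3'⟩ := hF q' hq'
    have hD : 0 < D := by omega
    have e1 : ((q - 1) * D + j) / D = q - 1 := by
      rw [mul_comm, Nat.mul_add_div hD, Nat.div_eq_of_lt hj]; omega
    have e2 : ((q' - 1) * D + j') / D = q' - 1 := by
      rw [mul_comm, Nat.mul_add_div hD, Nat.div_eq_of_lt hj']; omega
    have e3 : q - 1 = q' - 1 := by rw [← e1, ← e2, heq]
    have e4 : q = q' := by omega
    subst e4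
    have e5 : j = j' := by omega
    rw [e5]

theorem rich_pos {D S : ℕ} {L d : ℝ} (hL : 0 < L) (hD1 : L ≤ D) (hD2 : (D : ℝ) ≤ 2 * L)
    (hd : 0 < d) (hd1 : d ≤ 1) {n q v h : ℕ} (hq : 1 ≤ q)
    (hG : Gd D S ((1 + d / 2) * D / L) n q) (hv1 : (q - 1) * D ≤ v) (hv2 : v < q * D)
    (hlog : L ≤ Real.log (n + v : ℕ)) (hh1 : 32 / d * Real.log (n + v : ℕ) ≤ h) (hh2 : h ≤ S) :
    1 + d / 8 ≤ R (n + v) h := by
  obtain ⟨k, rfl⟩ : ∃ k, q = k + 1 := ⟨q - 1, by omega⟩
  rw [Nat.add_sub_cancel] at hv1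
  have hD0 : 0 < D := by
    have : (0 : ℝ) < D := by linarith
    exact_mod_cast this
  have hD0' : (0 : ℝ) < D := by exact_mod_cast hD0
  have hLh : L ≤ h * d / 32 := by
    have h1 : 32 / d * L ≤ h := (mul_le_mul_of_nonneg_left hlog (by positivity)).trans hh1
    rw [div_mul_eq_mul_div, div_le_iff₀ hd] at h1
    linarith
  have hh0 : (0 : ℝ) < h := by
    by_contra hcon
    have h1 : (h : ℝ) * d ≤ 0 := mul_nonpos_of_nonpos_of_nonneg (not_lt.1 hcon) hd.le
    linarith
  have hDh : (2 * D : ℝ) ≤ h := by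
    have h1 : (h : ℝ) * d ≤ h * 1 := mul_le_mul_of_nonneg_left hd1 hh0.le
    linarith
  have hDh' : 2 * D ≤ h := by exact_mod_cast hDh
  obtain ⟨m, hm⟩ : ∃ m, h / D = m + 1 := by
    have h1 : 2 ≤ h / D := by
      rw [Nat.le_div_iff_mul_le hD0]; exact hDh'
    exact ⟨h / D - 1, by omega⟩
  have hm1 : 1 ≤ m := by
    have h1 : 2 ≤ h / D := by
      rw [Nat.le_div_iff_mul_le hD0]; exact hDh'
    omega
  have hmS : m ≤ S := by
    have h1 : h / D ≤ h := Nat.div_le_self _ _
    omega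
  have hm2 : (m + 1) * D ≤ h := by rw [← hm]; exact Nat.div_mul_le_self h D
  have hm3 : h < (m + 2) * D := by
    have h1 : h < (h / D + 1) * D := by
      rw [← Nat.div_lt_iff_lt_mul hD0]; omega
    rw [hm] at h1
    exact h1
  have e1 : pc (n + (k + 1 + m) * D) ≤ pc (n + v + h) := by
    apply pc_mono
    have h1 : (k + 1 + m) * D = k * D + (m + 1) * D := by ring
    omega
  have e2 : pc (n + v) ≤ pc (n + (k + 1) * D) := by
    apply pc_mono; omega
  have e3 := hG m hm1 hmS
  have hm3' : (h : ℝ) < (m + 2) * D := by exact_mod_cast hm3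
  have hα : 0 ≤ (1 + d / 2) * D / L := by positivity
  have e4 : (1 + d / 2) * D / L * m ≤ pc (n + v + h) - pc (n + v) := by linarith
  have e5 : (1 + d / 2) * D / L * m * L ≤ (pc (n + v + h) - pc (n + v)) *
      Real.log (n + v : ℕ) := by
    apply mul_le_mul e4 hlog hL.le
    have : 0 ≤ (1 + d / 2) * D / L * m := by positivity
    linarith
  have e6 : (1 + d / 2) * D / L * m * L = (1 + d / 2) * (D * m) := by
    field_simp
  rw [e6] at e5
  unfold R
  rw [le_div_iff₀ hh0]
  refine le_trans ?_ e5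
  have e7 : (h : ℝ) * (1 - d / 8) ≤ D * m := by nlinarith
  have e8 : (1 + d / 2) * ((h : ℝ) * (1 - d / 8)) ≤ (1 + d / 2) * (D * m) :=
    mul_le_mul_of_nonneg_left e7 (by positivity)
  refine le_trans ?_ e8
  have e9 : (1 + d / 2) * ((h : ℝ) * (1 - d / 8)) - (1 + d / 8) * h =
      h * d * (4 - d) / 16 := by ring
  have e10 : 0 ≤ (h : ℝ) * d * (4 - d) / 16 := by
    have : 0 ≤ 4 - d := by linarith
    positivity
  linarith

theorem log_up {X n : ℕ} (hX : 0 < X) (hn : n ≤ 4 * X) : Real.log n ≤ Real.log X + 2 := by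
  have hX' : (0 : ℝ) < X := by exact_mod_cast hX
  rcases Nat.eq_zero_or_pos n with rfl | hn0
  · simp only [Nat.cast_zero, Real.log_zero]
    have : 0 ≤ Real.log X := Real.log_natCast_nonneg X
    linarith
  · have h1 : (n : ℝ) ≤ 4 * X := by exact_mod_cast hn
    have h2 : Real.log n ≤ Real.log (4 * X) := Real.log_le_log (by exact_mod_cast hn0) h1
    rw [Real.log_mul (by norm_num) hX'.ne'] at h2
    have h3 : Real.log 4 ≤ 2 := by
      have h4 : (4 : ℝ) = 2 ^ 2 := by norm_num
      rw [h4, Real.log_pow]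
      have := Real.log_two_lt_d9
      push_cast
      linarith
    linarith

/-- the arithmetic -/
theorem arith {L d s C U T D Q α S Z W1 : ℝ} (hd : 0 < d) (hs : 0 < s)
    (hsC : 2 * s * C = d / 8) (hC : 0 < C) (hL : 24 / d ≤ L) (hL0 : 1 ≤ L) (hT3 : L ^ 3 ≤ T)
    (hd1 : d ≤ 1) (hQ0 : 0 ≤ Q)
    (hD1 : L ≤ D) (hD2 : D ≤ 2 * L) (hQ : Q * D ≤ T) (hα : α = (1 + d / 2) * D / L)
    (hU : U = T / L) (h1 : (1 + d) * T / (L + 2) ≤ W1)
    (h2 : W1 ≤ D + α * Q + 1 / (2 * s) * (Z + (S + 1)) + s / 2 * (Q * (C * (D / L) ^ 2)))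
    (hS : S + 1 ≤ s * d / 8 * U) : s * d / 8 * U ≤ Z := by
  have hL' : 0 < L := by linarith
  have hT0 : 0 < T := lt_of_lt_of_le (by positivity) hT3
  have hU0 : 0 < U := by rw [hU]; positivity
  have hUL : U * L = T := by rw [hU]; field_simp
  have a1 : (1 + d) * U - 4 * (U / L) ≤ (1 + d) * T / (L + 2) := by
    rw [le_div_iff₀ (by linarith), ← hUL]
    have b1 : ((1 + d) * U - 4 * (U / L)) * (L + 2) =
        (1 + d) * (U * L) + 2 * (1 + d) * U - 4 * U - 8 * (U / L) := by
      field_simp; ring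
    rw [b1]
    have b2 : 0 ≤ U / L := by positivity
    nlinarith
  have a2 : D ≤ 2 * (U / L) := by
    have b1 : L ≤ U / L := by
      rw [hU, le_div_iff₀ hL', le_div_iff₀ hL']
      calc L * L * L = L ^ 3 := by ring
        _ ≤ T := hT3
    linarith
  have a3 : α * Q ≤ (1 + d / 2) * U := by
    have b1 : α * Q = (1 + d / 2) * (Q * D / L) := by rw [hα]; ring
    rw [b1, hU]
    apply mul_le_mul_of_nonneg_left _ (by positivity)
    exact div_le_div_of_nonneg_right hQ hL'.le
  have a4 : s / 2 * (Q * (C * (D / L) ^ 2)) ≤ d / 8 * U := by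
    have b1 : Q ≤ U := by
      rw [hU, le_div_iff₀ hL']
      exact (mul_le_mul_of_nonneg_left hD1 hQ0).trans hQ
    have b2 : (D / L) ^ 2 ≤ 4 := by
      have b3 : D / L ≤ 2 := by rw [div_le_iff₀ hL']; exact hD2
      have b4 : 0 ≤ D / L := div_nonneg (by linarith) hL'.le
      nlinarith
    calc s / 2 * (Q * (C * (D / L) ^ 2)) ≤ s / 2 * (U * (C * 4)) := by
          apply mul_le_mul_of_nonneg_left _ (by positivity)
          apply mul_le_mul b1 _ (by positivity) hU0.le
          exact mul_le_mul_of_nonneg_left b2 hC.le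
      _ = 2 * s * C * U := by ring
      _ = d / 8 * U := by rw [hsC]
  have a5 : 6 * (U / L) ≤ d / 4 * U := by
    rw [div_le_iff₀ hd] at hL
    have b1 : 6 * (U / L) = 6 * U / L := by ring
    rw [b1, div_le_iff₀ hL']
    nlinarith
  have a6 : d / 8 * U ≤ 1 / (2 * s) * (Z + (S + 1)) := by linarith
  have a7 : s * d / 4 * U ≤ Z + (S + 1) := by
    have b1 := mul_le_mul_of_nonneg_left a6 (by positivity : 0 ≤ 2 * s)
    have b2 : 2 * s * (1 / (2 * s) * (Z + (S + 1))) = Z + (S + 1) := by field_simp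
    rw [b2] at b1
    linarith
  linarith

end RICH

open Finset Filter RICH

theorem t_RICH (h : S_SM) : S_RICH := by
  classical
  obtain ⟨C, hC, hSM⟩ := h
  intro A d hA hd hd1
  obtain ⟨s, hs⟩ : ∃ s : ℝ, s = d / (16 * C) := ⟨_, rfl⟩
  have hs0 : 0 < s := by rw [hs]; positivity
  have hsC : 2 * s * C = d / 8 := by rw [hs]; field_simp; norm_num
  refine ⟨s * d / 8, 32 / d, by positivity, by positivity, ?_⟩
  intro B
  have hlog : Tendsto (fun X : ℕ => Real.log (X : ℝ)) atTop atTop :=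
    Real.tendsto_log_atTop.comp tendsto_natCast_atTop_atTop
  have hL0 : ∀ᶠ X : ℕ in atTop, max (24 / d) (max 2 (8 * (2 ^ A + 2) / (s * d))) ≤
      Real.log (X : ℝ) := hlog.eventually_ge_atTop _
  have hB : ∀ᶠ X : ℕ in atTop, Real.log (X : ℝ) ^ B ≤ X := by
    have h1 : ∀ᶠ x : ℝ in atTop, Real.log x ^ B ≤ x := by
      have h2 := (isLittleO_log_rpow_rpow_atTop B (zero_lt_one : (0 : ℝ) < 1)).bound
        (zero_lt_one : (0 : ℝ) < 1)
      filter_upwards [h2, eventually_ge_atTop (1 : ℝ)] with x hx hx1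
      rw [Real.rpow_one, one_mul, Real.norm_of_nonneg (Real.rpow_nonneg (Real.log_nonneg hx1) _),
        Real.norm_of_nonneg (by linarith)] at hx
      exact hx
    exact tendsto_natCast_atTop_atTop.eventually h1
  filter_upwards [hSM, hL0, hB] with X hX hL hXB W w hR T hT1 hT2 hsum
  obtain ⟨L, hLdef⟩ : ∃ L : ℝ, L = Real.log (X : ℝ) := ⟨_, rfl⟩
  rw [← hLdef] at hL hXB hT1 hT2
  have hL24 : 24 / d ≤ L := le_trans (le_max_left _ _) hL
  have hL2 : 2 ≤ L := le_trans (le_trans (le_max_left _ _) (le_max_right _ _)) hL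
  have hLA : 8 * (2 ^ A + 2) / (s * d) ≤ L :=
    le_trans (le_trans (le_max_right _ _) (le_max_right _ _)) hL
  have hLpos : 0 < L := by linarith
  have hXpos : 0 < X := by
    rcases Nat.eq_zero_or_pos X with h0 | h0
    · rw [h0] at hLdef; simp at hLdef; linarith
    · exact h0
  have hXR : (0 : ℝ) < X := by exact_mod_cast hXpos
  -- parameters
  obtain ⟨D, hD⟩ : ∃ D : ℕ, D = ⌈L⌉₊ := ⟨_, rfl⟩
  obtain ⟨S, hS⟩ : ∃ S : ℕ, S = ⌈(L + 2) ^ A⌉₊ := ⟨_, rfl⟩
  obtain ⟨Q, hQ⟩ : ∃ Q : ℕ, Q = T / D := ⟨_, rfl⟩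
  obtain ⟨α, hα⟩ : ∃ α : ℝ, α = (1 + d / 2) * D / L := ⟨_, rfl⟩
  have hD1 : L ≤ D := by rw [hD]; exact Nat.le_ceil L
  have hD2 : (D : ℝ) ≤ 2 * L := by
    have := Nat.ceil_lt_add_one hLpos.le
    rw [hD]; linarith
  have hDpos : 0 < D := by
    have : (0 : ℝ) < D := by linarith
    exact_mod_cast this
  have hDR : (0 : ℝ) < D := by exact_mod_cast hDpos
  have hQD : Q * D ≤ T := by rw [hQ]; exact Nat.div_mul_le_self T D
  have hTQ : T < Q * D + D := by
    have h1 : T < (T / D + 1) * D := by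
      rw [← Nat.div_lt_iff_lt_mul hDpos]; omega
    rw [← hQ] at h1
    linarith
  have hLApow : 1 ≤ L ^ A := Real.one_le_rpow (by linarith) (by linarith)
  have hLA1 : L ≤ L ^ A := by
    calc L = L ^ (1 : ℝ) := (Real.rpow_one L).symm
      _ ≤ L ^ A := Real.rpow_le_rpow_of_exponent_le (by linarith) hA
  have hLA2 : L ^ (A + 2) = L ^ A * L ^ 2 := by
    rw [Real.rpow_add hLpos, Real.rpow_two]
  rw [hLA2] at hT1
  have hT3 : L ^ 3 ≤ (T : ℝ) := by
    calc L ^ 3 = L * L ^ 2 := by ring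
      _ ≤ L ^ A * L ^ 2 := mul_le_mul_of_nonneg_right hLA1 (by positivity)
      _ ≤ T := hT1
  have hTpos : (0 : ℝ) < T := lt_of_lt_of_le (by positivity) hT3
  have hTX : T ≤ X := by
    have : (T : ℝ) ≤ X := hT2.trans hXB
    exact_mod_cast this
  have hSle : (S : ℝ) + 1 ≤ s * d / 8 * (T / L) := by
    have h1 : (S : ℝ) ≤ (L + 2) ^ A + 1 := by
      rw [hS]; exact (Nat.ceil_lt_add_one (by positivity)).le
    have h2 : (L + 2) ^ A ≤ 2 ^ A * L ^ A := by
      rw [← Real.mul_rpow (by norm_num) hLpos.le]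
      apply Real.rpow_le_rpow (by positivity) (by linarith) (by linarith)
    have h3 : (S : ℝ) + 1 ≤ (2 ^ A + 2) * L ^ A := by
      have : (2 : ℝ) ^ A * L ^ A + 2 ≤ (2 ^ A + 2) * L ^ A := by nlinarith
      linarith
    refine h3.trans ?_
    rw [div_le_iff₀ (by positivity)] at hLA
    have h4 : L ^ A * L ≤ T / L := by
      rw [le_div_iff₀ hLpos]
      calc L ^ A * L * L = L ^ A * L ^ 2 := by ring
        _ ≤ T := hT1
    have h5 : (2 ^ A + 2) * L ^ A ≤ s * d / 8 * (L ^ A * L) := by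
      have h6 : ((2 : ℝ) ^ A + 2) ≤ s * d / 8 * L := by linarith
      calc ((2 : ℝ) ^ A + 2) * L ^ A ≤ (s * d / 8 * L) * L ^ A :=
            mul_le_mul_of_nonneg_right h6 (by positivity)
        _ = s * d / 8 * (L ^ A * L) := by ring
    exact h5.trans (mul_le_mul_of_nonneg_left h4 (by positivity))
  -- the first moment
  have hlogn : ∀ n, w n ≠ 0 → Real.log n ≤ L + 2 := by
    intro n hn
    have h1 := hR.supp n hn
    rw [hLdef]
    exact log_up hXpos (by omega)
  have hmom : (1 + d) * T / (L + 2) ≤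
      ∑ n ∈ Icc 1 (3 * X), w n * (pc (n + T) - pc n) := by
    have h1 : ∑ n ∈ Icc 1 (3 * X), w n * R n T ≤
        (∑ n ∈ Icc 1 (3 * X), w n * (pc (n + T) - pc n)) * ((L + 2) / T) := by
      rw [sum_mul]
      apply sum_le_sum
      intro n _
      by_cases hn : w n = 0
      · rw [hn]; simp
      · have h2 := hlogn n hn
        have h3 : 0 ≤ pc (n + T) - pc n := sub_nonneg.2 (pc_mono (by omega))
        unfold R
        rw [mul_assoc]
        apply mul_le_mul_of_nonneg_left _ (hR.nonneg n)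
        rw [mul_div_assoc]
        apply mul_le_mul_of_nonneg_left _ h3
        exact div_le_div_of_nonneg_right h2 hTpos.le
    have h2 : 1 + d ≤ (∑ n ∈ Icc 1 (3 * X), w n * (pc (n + T) - pc n)) * ((L + 2) / T) :=
      hsum.trans h1
    rw [div_le_iff₀ (by linarith)]
    rw [mul_div_assoc', le_div_iff₀ hTpos] at h2
    exact h2
  -- the good positions
  obtain ⟨F, hF⟩ : ∃ F : ℕ → Finset ℕ, F = fun n =>
    (range Q).filter (fun q => 1 ≤ q ∧ Gd D S α n q) := ⟨_, rfl⟩
  have hup : ∑ n ∈ Icc 1 (3 * X), w n * (pc (n + T) - pc n) ≤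
      D + α * Q + 1 / (2 * s) * ((∑ n ∈ Icc 1 (3 * X), w n * ((F n).card : ℝ)) + (S + 1)) +
        s / 2 * (Q * (C * (D / L) ^ 2)) := by
    have h1 : ∀ n, pc (n + T) - pc n ≤ (D + α * Q + 1 / (2 * s) * (S + 1)) +
        1 / (2 * s) * ((F n).card : ℝ) +
        s / 2 * ∑ q ∈ range Q, (pc (n + q * D + D) - pc (n + q * D)) ^ 2 := by
      intro n
      have h2 := row D S Q n (α := α) (s := s) (by rw [hα]; positivity) hs0
      have h3 := card_E Q S (Gd D S α n)
      have h4 : pc (n + T) ≤ pc (n + Q * D) + D :=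
        le_trans (pc_mono (by omega : n + T ≤ n + Q * D + D)) (pc_add_le _ _)
      have h5 : (((range Q).filter (fun q => Gd D S α n q ∨ Q ≤ q + S)).card : ℝ) ≤
          ((F n).card : ℝ) + (S + 1) := by
        rw [hF]
        exact_mod_cast h3
      have h6 := mul_le_mul_of_nonneg_left h5 (by positivity : 0 ≤ 1 / (2 * s))
      have h7 : 1 / (2 * s) * (((F n).card : ℝ) + (S + 1)) =
        1 / (2 * s) * ((F n).card : ℝ) + 1 / (2 * s) * (S + 1) := by ring
      rw [h7] at h6
      linarith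
    have h2 : ∑ n ∈ Icc 1 (3 * X), w n * (pc (n + T) - pc n) ≤
        ∑ n ∈ Icc 1 (3 * X), w n * ((D + α * Q + 1 / (2 * s) * (S + 1)) +
        1 / (2 * s) * ((F n).card : ℝ) +
        s / 2 * ∑ q ∈ range Q, (pc (n + q * D + D) - pc (n + q * D)) ^ 2) :=
      sum_le_sum fun n _ => mul_le_mul_of_nonneg_left (h1 n) (hR.nonneg n)
    refine h2.trans ?_
    have h3 : ∑ n ∈ Icc 1 (3 * X), w n * ((D + α * Q + 1 / (2 * s) * (S + 1)) +
        1 / (2 * s) * ((F n).card : ℝ) +
        s / 2 * ∑ q ∈ range Q, (pc (n + q * D + D) - pc (n + q * D)) ^ 2) =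
        (D + α * Q + 1 / (2 * s) * (S + 1)) * (∑ n ∈ Icc 1 (3 * X), w n) +
        1 / (2 * s) * (∑ n ∈ Icc 1 (3 * X), w n * ((F n).card : ℝ)) +
        s / 2 * ∑ q ∈ range Q, ∑ n ∈ Icc 1 (3 * X),
          w n * (pc (n + q * D + D) - pc (n + q * D)) ^ 2 := by
      rw [sum_comm (s := range Q), mul_sum, mul_sum, mul_sum, ← sum_add_distrib,
        ← sum_add_distrib]
      apply sum_congr rfl
      intro n _
      rw [← mul_sum]
      ring
    rw [h3, hR.sum, mul_one]
    have h4 : ∑ q ∈ range Q, ∑ n ∈ Icc 1 (3 * X),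
          w n * (pc (n + q * D + D) - pc (n + q * D)) ^ 2 ≤ Q * (C * (D / L) ^ 2) := by
      calc ∑ q ∈ range Q, ∑ n ∈ Icc 1 (3 * X),
          w n * (pc (n + q * D + D) - pc (n + q * D)) ^ 2
          ≤ ∑ q ∈ range Q, C * (D / L) ^ 2 := by
            apply sum_le_sum
            intro q _
            have := hX W w hR (q * D) D (by rw [← hLdef]; exact hD1)
            rw [← hLdef] at this
            exact this
        _ = Q * (C * (D / L) ^ 2) := by rw [sum_const, card_range, nsmul_eq_mul]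
    have h5 := mul_le_mul_of_nonneg_left h4 (by positivity : 0 ≤ s / 2)
    linarith
  have hfin := arith (L := L) (d := d) (s := s) (C := C) (U := T / L) (T := T) (D := D) (Q := Q)
    (α := α) (S := S) hd hs0 hsC hC hL24 (by linarith) hT3 hd1 (by positivity) hD1 hD2
    (by exact_mod_cast hQD) hα rfl hmom hup hSle
  -- the positions
  have hcov : ∀ n, w n ≠ 0 → ((F n).card : ℝ) * D ≤
      (((range T).filter (fun v => ∀ h : ℕ, 32 / d * Real.log (n + v : ℕ) ≤ h →
        (h : ℝ) ≤ Real.log (n + v : ℕ) ^ A → 1 + d / 8 ≤ R (n + v) h)).card : ℝ) := by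
    intro n hn
    obtain ⟨hn1, hn2, _⟩ := hR.supp n hn
    have h1 := cover D Q T (F n) (by
      intro q hq
      rw [hF] at hq
      simp only [mem_filter, mem_range] at hq
      exact ⟨hq.2.1, hq.1⟩) hQD (fun v => ∀ h : ℕ, 32 / d * Real.log (n + v : ℕ) ≤ h →
        (h : ℝ) ≤ Real.log (n + v : ℕ) ^ A → 1 + d / 8 ≤ R (n + v) h) (by
      intro q hq v hv1 hv2 h hh1 hh2
      rw [hF] at hq
      simp only [mem_filter, mem_range] at hq
      have hvT : v < T := by
        have : q * D ≤ Q * D := Nat.mul_le_mul_right D hq.1.le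
        omega
      have hlo : L ≤ Real.log (n + v : ℕ) := by
        rw [hLdef]
        apply Real.log_le_log hXR
        exact_mod_cast (by omega : X ≤ n + v)
      have hhi : Real.log (n + v : ℕ) ≤ L + 2 := by
        rw [hLdef]
        exact log_up hXpos (by omega)
      have hhS : h ≤ S := by
        have h2 : (h : ℝ) ≤ (L + 2) ^ A :=
          hh2.trans (Real.rpow_le_rpow (by linarith) hhi (by linarith))
        have h3 : (h : ℝ) ≤ S := by rw [hS]; exact h2.trans (Nat.le_ceil _)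
        exact_mod_cast h3
      rw [hα] at hq
      exact rich_pos hLpos hD1 hD2 hd hd1 hq.2.1 hq.2.2 hv1 hv2 hlo hh1 hhS)
    exact_mod_cast h1
  calc s * d / 8 * T ≤ s * d / 8 * (T / L) * D := by
        have h1 : (T : ℝ) ≤ T / L * D := by
          rw [div_mul_eq_mul_div, le_div_iff₀ hLpos]
          exact mul_le_mul_of_nonneg_left hD1 hTpos.le
        calc s * d / 8 * T ≤ s * d / 8 * (T / L * D) :=
              mul_le_mul_of_nonneg_left h1 (by positivity)
          _ = s * d / 8 * (T / L) * D := by ring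
    _ ≤ (∑ n ∈ Icc 1 (3 * X), w n * ((F n).card : ℝ)) * D :=
        mul_le_mul_of_nonneg_right hfin hDR.le
    _ = ∑ n ∈ Icc 1 (3 * X), w n * (((F n).card : ℝ) * D) := by
        rw [sum_mul]
        apply sum_congr rfl
        intro n _
        ring
    _ ≤ _ := by
        apply sum_le_sum
        intro n _
        by_cases hn : w n = 0
        · rw [hn]; simp
        · refine mul_le_mul_of_nonneg_left ?_ (hR.nonneg n)
          convert hcov n hn

end Pool.Agent.N610.PL
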