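import Pool.Agent.N610.PL.Stm
import Pool.Agent.H373R2.T7.Fund
import Pool.Agent.W123.RP.Mert
import Pool.Agent.H646.Moment

/-!
# The second moment of the primes along the rows of the Maier matrix (project PL, helper80)

The fundamental lemma (uniform in the system of the classes) for the pairs of shifts, the product over the
primes dividing the difference of the shifts, and the mean value of the function `n / φ(n)`.
-/

set_option autoImplicit false

namespace Pool.Agent.N610.PL.SMP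

open Finset Filter Pool.Agent.H373R2.T7

/-- the conditions -/
def QQ (W h1 h2 : ℕ) (p r : ℕ) : Prop := ¬ p ∣ W ∧ (p ∣ W * r + h1 ∨ p ∣ W * r + h2)

lemma dvd_mod (W h p r : ℕ) : p ∣ W * r + h ↔ p ∣ W * (r % p) + h := by
  have h1 : W * r + h ≡ W * (r % p) + h [MOD p] :=
    Nat.ModEq.add_right _ (Nat.ModEq.mul_left _ (Nat.mod_modEq r p).symm)
  exact h1.dvd_iff (dvd_refl p)

lemma one_class (W h p r r' : ℕ) (hp : p.Prime) (hW : ¬ p ∣ W) (hr : r < p) (hr' : r' < p)
    (h1 : p ∣ W * r + h) (h2 : p ∣ W * r' + h) : r = r' := by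
  have e1 : W * r + h ≡ W * r' + h [MOD p] :=
    ((Nat.modEq_zero_iff_dvd).2 h1).trans ((Nat.modEq_zero_iff_dvd).2 h2).symm
  have e2 : W * r ≡ W * r' [MOD p] := Nat.ModEq.add_right_cancel' h e1
  have e3 : r ≡ r' [MOD p] :=
    Nat.ModEq.cancel_left_of_coprime ((Nat.Prime.coprime_iff_not_dvd hp).2 hW) e2
  exact Nat.ModEq.eq_of_lt_of_lt e3 hr hr'

lemma exists_class (W h p : ℕ) (hp : p.Prime) (hW : ¬ p ∣ W) : ∃ r, r < p ∧ p ∣ W * r + h := by
  have := Fact.mk hp
  have hW' : (W : ZMod p) ≠ 0 := by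
    rw [Ne, ZMod.natCast_eq_zero_iff]; exact hW
  refine ⟨(-(h : ZMod p) * (W : ZMod p)⁻¹).val, ZMod.val_lt _, ?_⟩
  rw [← ZMod.natCast_eq_zero_iff]
  push_cast
  rw [ZMod.natCast_zmod_val]
  field_simp
  ring

lemma class_eq (W p r h1 h2 : ℕ) (e1 : p ∣ W * r + h1) (e2 : p ∣ W * r + h2) :
    p ∣ (h1 - h2) + (h2 - h1) := by
  have e : W * r + h1 ≡ W * r + h2 [MOD p] :=
    ((Nat.modEq_zero_iff_dvd).2 e1).trans ((Nat.modEq_zero_iff_dvd).2 e2).symm
  have e' : h1 ≡ h2 [MOD p] := Nat.ModEq.add_left_cancel' _ e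
  rcases le_total h1 h2 with h | h
  · have : h1 - h2 = 0 := by omega
    rw [this, zero_add]
    exact (Nat.modEq_iff_dvd' h).1 e'
  · have : h2 - h1 = 0 := by omega
    rw [this, add_zero]
    exact (Nat.modEq_iff_dvd' h).1 e'.symm

lemma prod_mono_ge (S T : Finset ℕ) (hST : S ⊆ T) (g : ℕ → ℝ) (hg : ∀ p ∈ T, 1 ≤ g p) :
    ∏ p ∈ S, g p ≤ ∏ p ∈ T, g p := by
  rw [← Finset.prod_sdiff hST]
  have h1 : 1 ≤ ∏ p ∈ T \ S, g p := by
    calc (1 : ℝ) = ∏ _p ∈ T \ S, 1 := by simp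
      _ ≤ ∏ p ∈ T \ S, g p := Finset.prod_le_prod (fun _ _ => zero_le_one)
          (fun p hp => hg p (Finset.sdiff_subset hp))
  have h2 : 0 ≤ ∏ p ∈ S, g p := Finset.prod_nonneg fun p hp => by
    have := hg p (hST hp); linarith
  nlinarith

/-- square of a prime count as a sum over pairs -/
lemma cnt_sq (n u H : ℕ) : (((Ioc (n + u) (n + u + H)).filter Nat.Prime).card : ℝ) ^ 2 =
    ∑ q ∈ (Ioc u (u + H)) ×ˢ (Ioc u (u + H)),
      if (n + q.1).Prime ∧ (n + q.2).Prime then (1 : ℝ) else 0 := by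
  have h1 : (((Ioc (n + u) (n + u + H)).filter Nat.Prime).card : ℝ) =
      ∑ h ∈ Ioc u (u + H), if (n + h).Prime then (1 : ℝ) else 0 := by
    rw [Finset.card_filter]
    push_cast
    have e : Ioc (n + u) (n + u + H) = (Ioc u (u + H)).image (fun h => n + h) := by
      ext m
      simp only [mem_Ioc, mem_image]
      constructor
      · rintro ⟨h1, h2⟩
        exact ⟨m - n, ⟨by omega, by omega⟩, by omega⟩
      · rintro ⟨h, ⟨h1, h2⟩, rfl⟩
        exact ⟨by omega, by omega⟩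
    rw [e, Finset.sum_image (fun a _ b _ h => by simpa using h)]
  rw [h1, sq, Finset.sum_mul_sum, ← Finset.sum_product']
  refine Finset.sum_congr rfl fun q _ => ?_
  by_cases a1 : (n + q.1).Prime <;> by_cases a2 : (n + q.2).Prime <;> simp [a1, a2]

/-- sums over pairs -/
lemma pair_sum (u H : ℕ) (g : ℕ → ℝ) (hg : ∀ d, 0 ≤ g d) :
    ∑ q ∈ ((Ioc u (u + H)) ×ˢ (Ioc u (u + H))).filter (fun q => q.1 ≠ q.2),
      g ((q.1 - q.2) + (q.2 - q.1)) ≤ 2 * H * ∑ d ∈ Icc 1 H, g d := by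
  classical
  have hA : ∀ h ∈ Ioc u (u + H), ∑ h' ∈ (Ioc u (u + H)).filter (fun h' => h ≠ h'),
      g ((h - h') + (h' - h)) ≤ 2 * ∑ d ∈ Icc 1 H, g d := by
    intro h hh
    rw [mem_Ioc] at hh
    have e : (Ioc u (u + H)).filter (fun h' => h ≠ h') =
        (Ioc u (u + H)).filter (fun h' => h < h') ∪ (Ioc u (u + H)).filter (fun h' => h' < h) := by
      ext x
      simp only [mem_filter, mem_union, mem_Ioc]
      constructor
      · rintro ⟨h1, h2⟩
        rcases lt_or_gt_of_ne h2 with h3 | h3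
        · exact Or.inl ⟨h1, h3⟩
        · exact Or.inr ⟨h1, h3⟩
      · rintro (⟨h1, h2⟩ | ⟨h1, h2⟩)
        · exact ⟨h1, by omega⟩
        · exact ⟨h1, by omega⟩
    have hd : Disjoint ((Ioc u (u + H)).filter (fun h' => h < h'))
        ((Ioc u (u + H)).filter (fun h' => h' < h)) := by
      rw [Finset.disjoint_left]
      intro x hx hx'
      rw [mem_filter] at hx hx'
      omega
    rw [e, Finset.sum_union hd]
    have b1 : ∑ h' ∈ (Ioc u (u + H)).filter (fun h' => h < h'), g ((h - h') + (h' - h)) ≤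
        ∑ d ∈ Icc 1 H, g d := by
      rw [← Finset.sum_image (f := g) (g := fun h' => (h - h') + (h' - h))
        (s := (Ioc u (u + H)).filter (fun h' => h < h'))]
      · refine Finset.sum_le_sum_of_subset_of_nonneg ?_ fun d _ _ => hg d
        intro d hd
        rw [mem_image] at hd
        obtain ⟨x, hx, rfl⟩ := hd
        rw [mem_filter, mem_Ioc] at hx
        rw [mem_Icc]
        omega
      · intro x hx y hy hxy
        simp only [coe_filter, mem_Ioc, Set.mem_ofPred_eq] at hx hy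
        simp only at hxy
        omega
    have b2 : ∑ h' ∈ (Ioc u (u + H)).filter (fun h' => h' < h), g ((h - h') + (h' - h)) ≤
        ∑ d ∈ Icc 1 H, g d := by
      rw [← Finset.sum_image (f := g) (g := fun h' => (h - h') + (h' - h))
        (s := (Ioc u (u + H)).filter (fun h' => h' < h))]
      · refine Finset.sum_le_sum_of_subset_of_nonneg ?_ fun d _ _ => hg d
        intro d hd
        rw [mem_image] at hd
        obtain ⟨x, hx, rfl⟩ := hd
        rw [mem_filter, mem_Ioc] at hx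
        rw [mem_Icc]
        omega
      · intro x hx y hy hxy
        simp only [coe_filter, mem_Ioc, Set.mem_ofPred_eq] at hx hy
        simp only at hxy
        omega
    linarith
  have e : ∑ q ∈ ((Ioc u (u + H)) ×ˢ (Ioc u (u + H))).filter (fun q => q.1 ≠ q.2),
      g ((q.1 - q.2) + (q.2 - q.1)) = ∑ h ∈ Ioc u (u + H),
        ∑ h' ∈ (Ioc u (u + H)).filter (fun h' => h ≠ h'), g ((h - h') + (h' - h)) := by
    rw [Finset.sum_filter, Finset.sum_product]
    refine Finset.sum_congr rfl fun h _ => ?_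
    rw [Finset.sum_filter]
  rw [e]
  calc ∑ h ∈ Ioc u (u + H), ∑ h' ∈ (Ioc u (u + H)).filter (fun h' => h ≠ h'),
        g ((h - h') + (h' - h)) ≤ ∑ _h ∈ Ioc u (u + H), 2 * ∑ d ∈ Icc 1 H, g d :=
        Finset.sum_le_sum hA
    _ = 2 * H * ∑ d ∈ Icc 1 H, g d := by
        rw [Finset.sum_const, Nat.card_Ioc, nsmul_eq_mul]
        have : u + H - u = H := by omega
        rw [this]
        ring

lemma perB (W h1 h2 : ℕ) : PerB (QQ W h1 h2) 2 := by
  classical
  refine ⟨fun p n => ?_, fun p hp => ?_⟩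
  · unfold QQ
    rw [dvd_mod W h1 p n, dvd_mod W h2 p n]
  · by_cases hW : p ∣ W
    · have : nuB (QQ W h1 h2) p = 0 := by
        unfold nuB
        rw [card_eq_zero, filter_eq_empty_iff]
        intro r _ hr
        exact hr.1 hW
      omega
    · have hc : ∀ h, ((range p).filter (fun r => p ∣ W * r + h)).card ≤ 1 := by
        intro h
        rw [card_le_one]
        intro a ha b hb
        rw [mem_filter, mem_range] at ha hb
        exact one_class W h p a b hp hW ha.1 hb.1 ha.2 hb.2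
      unfold nuB
      calc ((range p).filter (fun r => QQ W h1 h2 p r)).card
          ≤ ((range p).filter (fun r => p ∣ W * r + h1) ∪ (range p).filter (fun r => p ∣ W * r + h2)).card := by
            apply card_le_card
            intro r hr
            rw [mem_filter] at hr
            rw [mem_union, mem_filter, mem_filter]
            rcases hr.2.2 with h | h
            · exact Or.inl ⟨hr.1, h⟩
            · exact Or.inr ⟨hr.1, h⟩
        _ ≤ _ := card_union_le _ _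
        _ ≤ 1 + 1 := add_le_add (hc h1) (hc h2)

lemma nuB_one (W h1 h2 p : ℕ) (hp : p.Prime) (hW : ¬ p ∣ W) : 1 ≤ nuB (QQ W h1 h2) p := by
  classical
  obtain ⟨r, hr, hd⟩ := exists_class W h1 p hp hW
  unfold nuB
  rw [Nat.one_le_iff_ne_zero, ← Nat.pos_iff_ne_zero, card_pos]
  exact ⟨r, mem_filter.2 ⟨mem_range.2 hr, hW, Or.inl hd⟩⟩

lemma nuB_two (W h1 h2 p : ℕ) (hp : p.Prime) (hW : ¬ p ∣ W)
    (hd : ¬ p ∣ (h1 - h2) + (h2 - h1)) : 2 ≤ nuB (QQ W h1 h2) p := by
  classical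
  obtain ⟨r, hr, e1⟩ := exists_class W h1 p hp hW
  obtain ⟨s, hs, e2⟩ := exists_class W h2 p hp hW
  unfold nuB
  change 1 < _
  rw [one_lt_card]
  refine ⟨r, mem_filter.2 ⟨mem_range.2 hr, hW, Or.inl e1⟩, s,
    mem_filter.2 ⟨mem_range.2 hs, hW, Or.inr e2⟩, ?_⟩
  rintro rfl
  exact hd (class_eq W p r h1 h2 e1 e2)

lemma prod_W (W y : ℕ) (hW : 0 < W) (hprod : 1 / 2 ≤ ∏ p ∈ W.primeFactors, (1 - 1 / (p : ℝ))) :
    ∏ p ∈ pz y, (if p ∣ W then (1 - 1 / (p : ℝ))⁻¹ else 1) ≤ 2 := by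
  classical
  rw [← Finset.prod_filter]
  calc ∏ p ∈ (pz y).filter (fun p => p ∣ W), (1 - 1 / (p : ℝ))⁻¹
      ≤ ∏ p ∈ W.primeFactors, (1 - 1 / (p : ℝ))⁻¹ := by
        apply prod_mono_ge
        · intro p hp
          rw [mem_filter, mem_pz] at hp
          exact Nat.mem_primeFactors.2 ⟨hp.1.2, hp.2, hW.ne'⟩
        · intro p hp
          have h2 : (2 : ℝ) ≤ p := by exact_mod_cast (Nat.prime_of_mem_primeFactors hp).two_le
          have h3 : 1 / (p : ℝ) ≤ 1 / 2 := one_div_le_one_div_of_le (by norm_num) h2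
          have h4 : 0 < 1 / (p : ℝ) := by positivity
          exact one_le_inv_iff₀.2 ⟨by linarith, by linarith⟩
    _ = (∏ p ∈ W.primeFactors, (1 - 1 / (p : ℝ)))⁻¹ := by rw [Finset.prod_inv_distrib]
    _ ≤ 2 := by
        rw [inv_le_comm₀ (by linarith) (by norm_num)]
        linarith

lemma prod_d (d y : ℕ) (hd : 0 < d) :
    ∏ p ∈ pz y, (if p ∣ d then (1 - 1 / (p : ℝ))⁻¹ else 1) ≤ Pool.Agent.H646.rat d := by
  classical
  rw [← Finset.prod_filter]
  have hd0 : (0 : ℝ) < d := by exact_mod_cast hd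
  calc ∏ p ∈ (pz y).filter (fun p => p ∣ d), (1 - 1 / (p : ℝ))⁻¹
      ≤ ∏ p ∈ d.primeFactors, (1 - 1 / (p : ℝ))⁻¹ := by
        apply prod_mono_ge
        · intro p hp
          rw [mem_filter, mem_pz] at hp
          exact Nat.mem_primeFactors.2 ⟨hp.1.2, hp.2, hd.ne'⟩
        · intro p hp
          have h2 : (2 : ℝ) ≤ p := by exact_mod_cast (Nat.prime_of_mem_primeFactors hp).two_le
          have h3 : 1 / (p : ℝ) ≤ 1 / 2 := one_div_le_one_div_of_le (by norm_num) h2
          have h4 : 0 < 1 / (p : ℝ) := by positivity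
          exact one_le_inv_iff₀.2 ⟨by linarith, by linarith⟩
    _ = Pool.Agent.H646.rat d := by
        have h1 : (Nat.totient d : ℝ) = d * ∏ p ∈ d.primeFactors, (1 - (p : ℝ)⁻¹) := by
          have := Nat.totient_eq_mul_prod_factors d
          have h2 : ((Nat.totient d : ℚ) : ℝ) = ((d * ∏ p ∈ d.primeFactors, (1 - (p : ℚ)⁻¹) : ℚ) : ℝ) := by
            rw [this]
          push_cast at h2
          exact h2
        unfold Pool.Agent.H646.rat
        rw [h1, ← div_div, div_self hd0.ne', one_div, Finset.prod_inv_distrib]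
        simp only [one_div]

/-- product bound, different shifts -/
lemma Pi_ne (W h1 h2 y : ℕ) (hW : 0 < W)
    (hprod : 1 / 2 ≤ ∏ p ∈ W.primeFactors, (1 - 1 / (p : ℝ))) (hne : h1 ≠ h2) :
    ∏ p ∈ pz y, (1 - (nuB (QQ W h1 h2) p : ℝ) / p) ≤
      4 * Vz y ^ 2 * Pool.Agent.H646.rat ((h1 - h2) + (h2 - h1)) := by
  classical
  obtain ⟨d, hd⟩ : ∃ d, d = (h1 - h2) + (h2 - h1) := ⟨_, rfl⟩
  have hd0 : 0 < d := by omega
  rw [← hd]
  have hfac : ∀ p ∈ pz y, (1 - (nuB (QQ W h1 h2) p : ℝ) / p) ≤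
      (1 - 1 / (p : ℝ)) ^ 2 * ((if p ∣ W then (1 - 1 / (p : ℝ))⁻¹ else 1) ^ 2 *
        (if p ∣ d then (1 - 1 / (p : ℝ))⁻¹ else 1)) := by
    intro p hp
    have hpp := (mem_pz.1 hp).2
    have hq2 : (2 : ℝ) ≤ p := by exact_mod_cast hpp.two_le
    have hp0 : (0 : ℝ) < p := by linarith
    have h3 : 1 / (p : ℝ) ≤ 1 / 2 := one_div_le_one_div_of_le (by norm_num) hq2
    have h4 : 0 < 1 / (p : ℝ) := by positivity
    have e0 : (nuB (QQ W h1 h2) p : ℝ) / p = nuB (QQ W h1 h2) p * (1 / (p : ℝ)) := by ring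
    rw [e0]
    obtain ⟨t, ht⟩ : ∃ t : ℝ, t = 1 / (p : ℝ) := ⟨_, rfl⟩
    rw [← ht] at h3 h4 ⊢
    have h5 : (1 - t) ≠ 0 := by linarith
    have hn0 : (0 : ℝ) ≤ nuB (QQ W h1 h2) p := by positivity
    have hge : (1 : ℝ) ≤ (if p ∣ d then (1 - t)⁻¹ else 1) := by
      split_ifs
      · exact one_le_inv_iff₀.2 ⟨by linarith, by linarith⟩
      · exact le_refl _
    by_cases a1 : p ∣ W
    · rw [if_pos a1]
      have e1 : (1 - t) ^ 2 * ((1 - t)⁻¹ ^ 2 * (if p ∣ d then (1 - t)⁻¹ else 1)) =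
          (if p ∣ d then (1 - t)⁻¹ else 1) := by
        rw [← mul_assoc, ← mul_pow, mul_inv_cancel₀ h5, one_pow, one_mul]
      rw [e1]
      nlinarith
    · rw [if_neg a1]
      by_cases a2 : p ∣ d
      · rw [if_pos a2]
        have e1 : (1 - t) ^ 2 * (1 ^ 2 * (1 - t)⁻¹) = 1 - t := by
          field_simp
        rw [e1]
        have h6 : (1 : ℝ) ≤ nuB (QQ W h1 h2) p := by exact_mod_cast nuB_one W h1 h2 p hpp a1
        nlinarith
      · rw [if_neg a2]
        have h6 : (2 : ℝ) ≤ nuB (QQ W h1 h2) p := by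
          exact_mod_cast nuB_two W h1 h2 p hpp a1 (by rw [← hd]; exact a2)
        nlinarith
  calc ∏ p ∈ pz y, (1 - (nuB (QQ W h1 h2) p : ℝ) / p)
      ≤ ∏ p ∈ pz y, ((1 - 1 / (p : ℝ)) ^ 2 * ((if p ∣ W then (1 - 1 / (p : ℝ))⁻¹ else 1) ^ 2 *
        (if p ∣ d then (1 - 1 / (p : ℝ))⁻¹ else 1))) := by
        refine Finset.prod_le_prod (fun p hp => ?_) hfac
        have hp0 : (0 : ℝ) < p := by exact_mod_cast (mem_pz.1 hp).2.pos
        have hq1 : (nuB (QQ W h1 h2) p : ℝ) / p ≤ 1 := by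
          rw [div_le_one hp0]; exact_mod_cast nuB_le _ p
        linarith
    _ = Vz y ^ 2 * ((∏ p ∈ pz y, (if p ∣ W then (1 - 1 / (p : ℝ))⁻¹ else 1)) ^ 2 *
        ∏ p ∈ pz y, (if p ∣ d then (1 - 1 / (p : ℝ))⁻¹ else 1)) := by
        rw [Finset.prod_mul_distrib, Finset.prod_mul_distrib, Finset.prod_pow, Finset.prod_pow]
        rfl
    _ ≤ Vz y ^ 2 * (2 ^ 2 * Pool.Agent.H646.rat d) := by
        have b1 := prod_W W y hW hprod
        have b2 := prod_d d y hd0
        have b0 : 0 ≤ ∏ p ∈ pz y, (if p ∣ W then (1 - 1 / (p : ℝ))⁻¹ else 1) := by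
          refine Finset.prod_nonneg fun p hp => ?_
          have hq2 : (2 : ℝ) ≤ p := by exact_mod_cast (mem_pz.1 hp).2.two_le
          have h3 : 1 / (p : ℝ) ≤ 1 / 2 := one_div_le_one_div_of_le (by norm_num) hq2
          split_ifs
          · exact inv_nonneg.2 (by linarith)
          · norm_num
        have b3 : 0 ≤ ∏ p ∈ pz y, (if p ∣ d then (1 - 1 / (p : ℝ))⁻¹ else 1) := by
          refine Finset.prod_nonneg fun p hp => ?_
          have hq2 : (2 : ℝ) ≤ p := by exact_mod_cast (mem_pz.1 hp).2.two_le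
          have h3 : 1 / (p : ℝ) ≤ 1 / 2 := one_div_le_one_div_of_le (by norm_num) hq2
          split_ifs
          · exact inv_nonneg.2 (by linarith)
          · norm_num
        refine mul_le_mul_of_nonneg_left ?_ (sq_nonneg _)
        exact mul_le_mul (pow_le_pow_left₀ b0 b1 2) b2 b3 (by norm_num)
    _ = _ := by ring

/-- product bound, equal shifts -/
lemma Pi_eq (W h1 h2 y : ℕ) (hW : 0 < W)
    (hprod : 1 / 2 ≤ ∏ p ∈ W.primeFactors, (1 - 1 / (p : ℝ))) :
    ∏ p ∈ pz y, (1 - (nuB (QQ W h1 h2) p : ℝ) / p) ≤ 2 * Vz y := by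
  classical
  have hV0 : 0 ≤ Vz y := by
    refine Finset.prod_nonneg fun p hp => ?_
    have hq2 : (2 : ℝ) ≤ p := by exact_mod_cast (mem_pz.1 hp).2.two_le
    have h3 : 1 / (p : ℝ) ≤ 1 / 2 := one_div_le_one_div_of_le (by norm_num) hq2
    linarith
  calc ∏ p ∈ pz y, (1 - (nuB (QQ W h1 h2) p : ℝ) / p)
      ≤ ∏ p ∈ pz y, ((1 - 1 / (p : ℝ)) * (if p ∣ W then (1 - 1 / (p : ℝ))⁻¹ else 1)) := by
        refine Finset.prod_le_prod (fun p hp => ?_) (fun p hp => ?_)
        · have hp0 : (0 : ℝ) < p := by exact_mod_cast (mem_pz.1 hp).2.pos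
          have hq1 : (nuB (QQ W h1 h2) p : ℝ) / p ≤ 1 := by
            rw [div_le_one hp0]; exact_mod_cast nuB_le _ p
          linarith
        · have hpp := (mem_pz.1 hp).2
          have hq2 : (2 : ℝ) ≤ p := by exact_mod_cast hpp.two_le
          have hp0 : (0 : ℝ) < p := by linarith
          have h3 : 1 / (p : ℝ) ≤ 1 / 2 := one_div_le_one_div_of_le (by norm_num) hq2
          have h4 : 0 < 1 / (p : ℝ) := by positivity
          have e0 : (nuB (QQ W h1 h2) p : ℝ) / p = nuB (QQ W h1 h2) p * (1 / (p : ℝ)) := by ring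
          rw [e0]
          obtain ⟨t, ht⟩ : ∃ t : ℝ, t = 1 / (p : ℝ) := ⟨_, rfl⟩
          rw [← ht] at h3 h4 ⊢
          have h5 : (1 - t) ≠ 0 := by linarith
          have hn0 : (0 : ℝ) ≤ nuB (QQ W h1 h2) p := by positivity
          by_cases a1 : p ∣ W
          · rw [if_pos a1, mul_inv_cancel₀ h5]
            nlinarith
          · rw [if_neg a1, mul_one]
            have h6 : (1 : ℝ) ≤ nuB (QQ W h1 h2) p := by exact_mod_cast nuB_one W h1 h2 p hpp a1
            nlinarith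
    _ = Vz y * ∏ p ∈ pz y, (if p ∣ W then (1 - 1 / (p : ℝ))⁻¹ else 1) := by
        rw [Finset.prod_mul_distrib]; rfl
    _ ≤ Vz y * 2 := mul_le_mul_of_nonneg_left (prod_W W y hW hprod) hV0
    _ = _ := by ring

lemma cnt_eq (n Y : ℕ) : (Nat.primeCounting (n + Y) : ℝ) - Nat.primeCounting n =
    ((Ioc n (n + Y)).filter Nat.Prime).card := by
  have h : Nat.primeCounting (n + Y) = Nat.primeCounting n +
      ((Ioc n (n + Y)).filter Nat.Prime).card := by
    simp only [Nat.primeCounting, Nat.primeCounting', Nat.count_eq_card_filter_range]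
    rw [← Finset.card_union_of_disjoint]
    · congr 1
      ext m
      simp only [Finset.mem_union, Finset.mem_filter, Finset.mem_range, Finset.mem_Ioc]
      constructor
      · rintro ⟨h1, h2⟩
        by_cases h3 : m < n + 1
        · exact Or.inl ⟨h3, h2⟩
        · exact Or.inr ⟨⟨by omega, by omega⟩, h2⟩
      · rintro (⟨h1, h2⟩ | ⟨⟨h1, h3⟩, h2⟩)
        · exact ⟨by omega, h2⟩
        · exact ⟨by omega, h2⟩
    · rw [Finset.disjoint_left]
      intro m hm hm'
      simp only [Finset.mem_filter, Finset.mem_range, Finset.mem_Ioc] at hm hm'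
      omega
  rw [h]
  push_cast
  ring

/-- from the rows to the multiples of `W` -/
lemma step1 (X W : ℕ) (w : ℕ → ℝ) (hw : Rows X W w) (f : ℕ → ℝ) (hf : ∀ n, 0 ≤ f n) :
    ∑ n ∈ Icc 1 (3 * X), w n * f n ≤
      (20 * W / X) * ∑ r ∈ (Icc 1 (3 * X / W)).filter (fun r => X < W * r), f (W * r) := by
  classical
  have hW : 0 < W := hw.pos
  rw [Finset.mul_sum]
  rw [← Finset.sum_image (f := fun n => (20 * W / X : ℝ) * f n) (g := fun r => W * r)
    (s := (Icc 1 (3 * X / W)).filter (fun r => X < W * r))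
    (fun a _ b _ h => Nat.eq_of_mul_eq_mul_left hW h)]
  calc ∑ n ∈ Icc 1 (3 * X), w n * f n
      = ∑ n ∈ (Icc 1 (3 * X)).filter (fun n => w n ≠ 0), w n * f n := by
        symm
        apply Finset.sum_filter_of_ne
        intro n _ h hw0
        apply h
        rw [hw0, zero_mul]
    _ ≤ ∑ n ∈ (Icc 1 (3 * X)).filter (fun n => w n ≠ 0), (20 * W / X : ℝ) * f n :=
        Finset.sum_le_sum fun n _ => mul_le_mul_of_nonneg_right (hw.le n) (hf n)
    _ ≤ _ := by
        refine Finset.sum_le_sum_of_subset_of_nonneg ?_ fun n _ _ => by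
          have := hf n
          positivity
        intro n hn
        rw [mem_filter] at hn
        obtain ⟨h1, h2, k, rfl⟩ := hw.supp n hn.2
        rw [mem_image]
        refine ⟨k, ?_, rfl⟩
        rw [mem_filter, mem_Icc]
        refine ⟨⟨?_, ?_⟩, h1⟩
        · rcases Nat.eq_zero_or_pos k with h | h
          · rw [h, mul_zero] at h1; omega
          · exact h
        · rw [Nat.le_div_iff_mul_le hW]
          linarith [mul_comm W k]

open Classical in
/-- the number of the rows with two primes -/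
lemma count_pair (N y X W h1 h2 : ℕ) (hW : 0 < W) (hyX : y ≤ X)
    (hprod : 1 / 2 ≤ ∏ p ∈ W.primeFactors, (1 - 1 / (p : ℝ)))
    (hF : ∀ Q : ℕ → ℕ → Prop, PerB Q 2 → ∀ X : ℕ,
      |((((Icc 1 X).filter (fun n : ℕ => ∀ p ∈ pz y, ¬ Q p n)).card : ℕ) : ℝ) -
      X * ∏ p ∈ pz y, (1 - (nuB Q p : ℝ) / p)| ≤
        1 * (X * ∏ p ∈ pz y, (1 - (nuB Q p : ℝ) / p)) + √(N : ℝ)) :
    ((((Icc 1 N).filter (fun r => X < W * r)).filter
      (fun r => (W * r + h1).Prime ∧ (W * r + h2).Prime)).card : ℝ) ≤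
      2 * N * (∏ p ∈ pz y, (1 - (nuB (QQ W h1 h2) p : ℝ) / p)) + √(N : ℝ) := by
  have h3 := (abs_le.1 (hF (QQ W h1 h2) (perB W h1 h2) N)).2
  have h4 : ((((Icc 1 N).filter (fun r => X < W * r)).filter
      (fun r => (W * r + h1).Prime ∧ (W * r + h2).Prime)).card : ℝ) ≤
      ((((Icc 1 N).filter (fun n : ℕ => ∀ p ∈ pz y, ¬ QQ W h1 h2 p n)).card : ℕ) : ℝ) := by
    norm_cast
    apply card_le_card
    intro r hr
    rw [mem_filter, mem_filter] at hr
    obtain ⟨⟨a1, a2⟩, a3, a4⟩ := hr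
    rw [mem_filter]
    refine ⟨a1, fun p hp hQ => ?_⟩
    obtain ⟨b1, b2⟩ := mem_pz.1 hp
    rcases hQ.2 with h | h
    · have := (Nat.prime_dvd_prime_iff_eq b2 a3).1 h
      omega
    · have := (Nat.prime_dvd_prime_iff_eq b2 a4).1 h
      omega
  linarith

open Classical in
/-- the sum over the rows -/
lemma rows_sum (N y X W u H : ℕ) (hW : 0 < W) (hyX : y ≤ X)
    (hprod : 1 / 2 ≤ ∏ p ∈ W.primeFactors, (1 - 1 / (p : ℝ)))
    (hF : ∀ Q : ℕ → ℕ → Prop, PerB Q 2 → ∀ X : ℕ,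
      |((((Icc 1 X).filter (fun n : ℕ => ∀ p ∈ pz y, ¬ Q p n)).card : ℕ) : ℝ) -
      X * ∏ p ∈ pz y, (1 - (nuB Q p : ℝ) / p)| ≤
        1 * (X * ∏ p ∈ pz y, (1 - (nuB Q p : ℝ) / p)) + √(N : ℝ))
    (CR : ℝ) (hR : ∑ n ∈ Icc 1 H, Pool.Agent.H646.rat n ≤ CR * H) :
    ∑ r ∈ (Icc 1 N).filter (fun r => X < W * r), (pc (W * r + u + H) - pc (W * r + u)) ^ 2 ≤
      16 * CR * N * Vz y ^ 2 * H ^ 2 + 4 * N * Vz y * H + H ^ 2 * √(N : ℝ) := by
  have hN0 : (0 : ℝ) ≤ N := Nat.cast_nonneg _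
  have hrat0 : ∀ d, 0 ≤ Pool.Agent.H646.rat d := fun d => by
    unfold Pool.Agent.H646.rat; positivity
  have hV0 : 0 ≤ Vz y := by
    refine Finset.prod_nonneg fun p hp => ?_
    have h2 : (2 : ℝ) ≤ p := by exact_mod_cast (mem_pz.1 hp).2.two_le
    have h3 : 1 / (p : ℝ) ≤ 1 / 2 := one_div_le_one_div_of_le (by norm_num) h2
    linarith
  set S := (Ioc u (u + H)) ×ˢ (Ioc u (u + H)) with hS
  have e1 : ∑ r ∈ (Icc 1 N).filter (fun r => X < W * r), (pc (W * r + u + H) - pc (W * r + u)) ^ 2 =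
      ∑ q ∈ S, ((((Icc 1 N).filter (fun r => X < W * r)).filter
      (fun r => (W * r + q.1).Prime ∧ (W * r + q.2).Prime)).card : ℝ) := by
    calc _ = ∑ r ∈ (Icc 1 N).filter (fun r => X < W * r), ∑ q ∈ S,
        (if (W * r + q.1).Prime ∧ (W * r + q.2).Prime then (1 : ℝ) else 0) := by
          refine Finset.sum_congr rfl fun r _ => ?_
          unfold pc
          rw [cnt_eq, cnt_sq]
      _ = ∑ q ∈ S, ∑ r ∈ (Icc 1 N).filter (fun r => X < W * r),
        (if (W * r + q.1).Prime ∧ (W * r + q.2).Prime then (1 : ℝ) else 0) := Finset.sum_comm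
      _ = _ := by
          refine Finset.sum_congr rfl fun q _ => ?_
          rw [← Finset.sum_filter, Finset.sum_const, nsmul_eq_mul, mul_one]
  rw [e1, ← Finset.sum_filter_add_sum_filter_not S (fun q => q.1 ≠ q.2)]
  have hcardS : (S.card : ℝ) = H ^ 2 := by
    rw [hS, card_product, Nat.card_Ioc]
    have : u + H - u = H := by omega
    rw [this]
    push_cast
    ring
  -- different shifts
  have s1 : ∑ q ∈ S.filter (fun q => q.1 ≠ q.2), ((((Icc 1 N).filter (fun r => X < W * r)).filter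
      (fun r => (W * r + q.1).Prime ∧ (W * r + q.2).Prime)).card : ℝ) ≤
      16 * CR * N * Vz y ^ 2 * H ^ 2 + (S.filter (fun q => q.1 ≠ q.2)).card * √(N : ℝ) := by
    calc _ ≤ ∑ q ∈ S.filter (fun q => q.1 ≠ q.2), (8 * N * Vz y ^ 2 *
          Pool.Agent.H646.rat ((q.1 - q.2) + (q.2 - q.1)) + √(N : ℝ)) := by
          refine Finset.sum_le_sum fun q hq => ?_
          rw [mem_filter] at hq
          refine (count_pair N y X W q.1 q.2 hW hyX hprod hF).trans ?_
          have := Pi_ne W q.1 q.2 y hW hprod hq.2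
          have h5 := mul_le_mul_of_nonneg_left this (by positivity : (0 : ℝ) ≤ 2 * N)
          linarith
      _ = 8 * N * Vz y ^ 2 * ∑ q ∈ S.filter (fun q => q.1 ≠ q.2),
          Pool.Agent.H646.rat ((q.1 - q.2) + (q.2 - q.1)) +
            (S.filter (fun q => q.1 ≠ q.2)).card * √(N : ℝ) := by
          rw [Finset.sum_add_distrib, ← Finset.mul_sum, Finset.sum_const, nsmul_eq_mul]
      _ ≤ 8 * N * Vz y ^ 2 * (2 * H * (CR * H)) +
            (S.filter (fun q => q.1 ≠ q.2)).card * √(N : ℝ) := by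
          have h6 := pair_sum u H Pool.Agent.H646.rat hrat0
          have h7 : 2 * (H : ℝ) * ∑ d ∈ Icc 1 H, Pool.Agent.H646.rat d ≤ 2 * H * (CR * H) :=
            mul_le_mul_of_nonneg_left hR (by positivity)
          have h8 : 8 * (N : ℝ) * Vz y ^ 2 * ∑ q ∈ S.filter (fun q => q.1 ≠ q.2),
              Pool.Agent.H646.rat ((q.1 - q.2) + (q.2 - q.1)) ≤
              8 * N * Vz y ^ 2 * (2 * H * (CR * H)) :=
            mul_le_mul_of_nonneg_left (h6.trans h7) (by positivity)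
          linarith
      _ = _ := by ring
  -- equal shifts
  have s2 : ∑ q ∈ S.filter (fun q => ¬ q.1 ≠ q.2), ((((Icc 1 N).filter (fun r => X < W * r)).filter
      (fun r => (W * r + q.1).Prime ∧ (W * r + q.2).Prime)).card : ℝ) ≤
      4 * N * Vz y * H + (S.filter (fun q => ¬ q.1 ≠ q.2)).card * √(N : ℝ) := by
    have hc : ((S.filter (fun q => ¬ q.1 ≠ q.2)).card : ℝ) ≤ H := by
      have : (S.filter (fun q => ¬ q.1 ≠ q.2)).card ≤ (Ioc u (u + H)).card := by
        apply card_le_card_of_injOn (fun q => q.1)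
        · intro q hq
          rw [mem_coe, mem_filter, hS, mem_product] at hq
          exact mem_coe.2 hq.1.1
        · intro q hq q' hq' hqq
          rw [mem_coe, mem_filter] at hq hq'
          have h1 := not_not.1 hq.2
          have h2 := not_not.1 hq'.2
          have h3 : q.1 = q'.1 := hqq
          exact Prod.ext h3 (by rw [← h1, ← h2, h3])
      rw [Nat.card_Ioc] at this
      exact_mod_cast (by omega : (S.filter (fun q => ¬ q.1 ≠ q.2)).card ≤ H)
    calc _ ≤ ∑ q ∈ S.filter (fun q => ¬ q.1 ≠ q.2), (4 * N * Vz y + √(N : ℝ)) := by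
          refine Finset.sum_le_sum fun q hq => ?_
          refine (count_pair N y X W q.1 q.2 hW hyX hprod hF).trans ?_
          have := Pi_eq W q.1 q.2 y hW hprod
          have h5 := mul_le_mul_of_nonneg_left this (by positivity : (0 : ℝ) ≤ 2 * N)
          linarith
      _ = (S.filter (fun q => ¬ q.1 ≠ q.2)).card * (4 * N * Vz y) +
            (S.filter (fun q => ¬ q.1 ≠ q.2)).card * √(N : ℝ) := by
          rw [Finset.sum_const, nsmul_eq_mul]; ring
      _ ≤ H * (4 * N * Vz y) + (S.filter (fun q => ¬ q.1 ≠ q.2)).card * √(N : ℝ) := by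
          have := mul_le_mul_of_nonneg_right hc (by positivity : (0 : ℝ) ≤ 4 * N * Vz y)
          linarith
      _ = _ := by ring
  have hcc : ((S.filter (fun q => q.1 ≠ q.2)).card : ℝ) + (S.filter (fun q => ¬ q.1 ≠ q.2)).card =
      H ^ 2 := by
    rw [← hcardS]
    exact_mod_cast Finset.card_filter_add_card_filter_not (s := S) (fun q => q.1 ≠ q.2)
  have hfin : ((S.filter (fun q => q.1 ≠ q.2)).card : ℝ) * √(N : ℝ) +
      (S.filter (fun q => ¬ q.1 ≠ q.2)).card * √(N : ℝ) = H ^ 2 * √(N : ℝ) := by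
    rw [← add_mul, hcc]
  linarith

lemma fin_arith (CR n V h s D L q : ℝ) (hCR : 0 ≤ CR) (hn : 0 ≤ n) (hV : 0 ≤ V) (hD : 0 ≤ D)
    (hq : 1 ≤ q) (hL : 0 < L) (hVD : V ≤ D / L) (hh : h = q * L) (hs : L ^ 2 * s ≤ n) :
    16 * CR * n * V ^ 2 * h ^ 2 + 4 * n * V * h + h ^ 2 * s ≤
      n * q ^ 2 * (16 * CR * D ^ 2 + 4 * D + 1) := by
  have hh0 : 0 ≤ h := by rw [hh]; positivity
  have b1 : V * h ≤ D * q := by
    calc V * h ≤ D / L * h := mul_le_mul_of_nonneg_right hVD hh0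
      _ = D * q := by rw [hh]; field_simp
  have b2 : (V * h) ^ 2 ≤ (D * q) ^ 2 := pow_le_pow_left₀ (by positivity) b1 2
  have c1 : 16 * CR * n * V ^ 2 * h ^ 2 ≤ n * q ^ 2 * (16 * CR * D ^ 2) := by
    calc 16 * CR * n * V ^ 2 * h ^ 2 = 16 * CR * n * (V * h) ^ 2 := by ring
      _ ≤ 16 * CR * n * (D * q) ^ 2 := mul_le_mul_of_nonneg_left b2 (by positivity)
      _ = _ := by ring
  have c2 : 4 * n * V * h ≤ n * q ^ 2 * (4 * D) := by
    calc 4 * n * V * h = 4 * n * (V * h) := by ring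
      _ ≤ 4 * n * (D * q) := mul_le_mul_of_nonneg_left b1 (by positivity)
      _ = 4 * n * D * q := by ring
      _ ≤ 4 * n * D * q ^ 2 := by
          refine mul_le_mul_of_nonneg_left ?_ (by positivity)
          nlinarith
      _ = _ := by ring
  have c3 : h ^ 2 * s ≤ n * q ^ 2 := by
    calc h ^ 2 * s = q ^ 2 * (L ^ 2 * s) := by rw [hh]; ring
      _ ≤ q ^ 2 * n := mul_le_mul_of_nonneg_left hs (by positivity)
      _ = _ := by ring
  linarith

end Pool.Agent.N610.PL.SMP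

namespace Pool.Agent.N610.PL

open Finset Filter Pool.Agent.H373R2.T7

theorem t_SM : S_SM := by
  classical
  obtain ⟨K, x0, hK, hF⟩ := sys_fund 2 (by norm_num) 1 one_pos
  obtain ⟨c0, C1, _, hC1, hV⟩ := Pool.Agent.W123.RP.Vz_bounds
  obtain ⟨CR, hCR, hR⟩ := Pool.Agent.H646.MomentM.rat_moment 1
  have hK0 : (1 : ℝ) ≤ K := by exact_mod_cast hK
  have hKpos : (0 : ℝ) < K := by linarith
  set D : ℝ := 4 * K * C1 with hD
  have hD0 : 0 < D := by positivity
  refine ⟨60 * (16 * CR * D ^ 2 + 4 * D + 1), by positivity, ?_⟩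
  have T1 : Tendsto (fun X : ℕ => (X : ℝ) ^ (1 / (2 * K) : ℝ)) atTop atTop :=
    (tendsto_rpow_atTop (by positivity)).comp tendsto_natCast_atTop_atTop
  have T2 : Tendsto (fun X : ℕ => Real.log (X : ℝ)) atTop atTop :=
    Real.tendsto_log_atTop.comp tendsto_natCast_atTop_atTop
  have T3 : ∀ᶠ X : ℕ in atTop, Real.log (X : ℝ) ^ 2 ≤ (X : ℝ) ^ (1 / 4 : ℝ) := by
    have h := ((isLittleO_log_rpow_rpow_atTop ((2 : ℕ) : ℝ) (by norm_num : (0 : ℝ) < 1 / 4)).comp_tendsto
      tendsto_natCast_atTop_atTop).bound (by norm_num : (0 : ℝ) < 1)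
    filter_upwards [h, eventually_ge_atTop 1] with X h2 hX1
    have hX1' : (1 : ℝ) ≤ X := by exact_mod_cast hX1
    have hlog : 0 ≤ Real.log (X : ℝ) := Real.log_nonneg hX1'
    simp only [Function.comp_def] at h2
    rw [Real.norm_of_nonneg (by positivity), Real.norm_of_nonneg (by positivity),
      Real.rpow_natCast, one_mul] at h2
    exact h2
  filter_upwards [T1.eventually_ge_atTop ((x0 : ℝ) + 3), T2.eventually_ge_atTop (4 * K), T3,
    eventually_ge_atTop 2] with X h1 h2 h3 h4 W w hw u H hH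
  have hX2 : (2 : ℝ) ≤ X := by exact_mod_cast h4
  have hX0 : (0 : ℝ) < X := by linarith
  set L := Real.log (X : ℝ) with hL
  have hL4 : 4 * K ≤ L := h2
  have hL1 : 1 ≤ L := by linarith
  have hL0 : 0 < L := by linarith
  -- the size of `y`
  set z : ℝ := (X : ℝ) ^ (1 / (2 * K) : ℝ) with hz
  set y : ℕ := ⌊z⌋₊ with hy
  have hz0 : 0 < z := by positivity
  have hyz : (y : ℝ) ≤ z := Nat.floor_le hz0.le
  have hzy : z < y + 1 := Nat.lt_floor_add_one z
  have hx0y : (x0 : ℝ) + 2 ≤ y := by linarith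
  have hx0y' : x0 + 2 ≤ y := by exact_mod_cast hx0y
  have hy2 : 2 ≤ y := by omega
  have hx0r : (0 : ℝ) ≤ x0 := Nat.cast_nonneg _
  have hy0 : (0 : ℝ) < y := by linarith
  have hlogy : L / (4 * K) ≤ Real.log y := by
    have a1 : z / 2 ≤ y := by linarith
    have a2 : Real.log (z / 2) ≤ Real.log y := Real.log_le_log (by positivity) a1
    rw [Real.log_div hz0.ne' (by norm_num), hz, Real.log_rpow hX0, ← hL] at a2
    have a3 : Real.log 2 ≤ 1 := by have := Real.log_two_lt_d9; linarith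
    have a4 : 1 / (2 * K) * L = 2 * (L / (4 * K)) := by field_simp; ring
    have a5 : 1 ≤ L / (4 * K) := by rw [le_div_iff₀ (by positivity)]; linarith
    linarith
  -- the number of the rows
  set N : ℕ := 3 * X / W with hN
  have hW : 0 < W := hw.pos
  have hW0 : (0 : ℝ) < W := by exact_mod_cast hW
  have hsq : (X : ℝ) ^ (1 / 2 : ℝ) * (X : ℝ) ^ (1 / 2 : ℝ) = X := by
    rw [← Real.rpow_add hX0]; norm_num
  have hsq1 : 1 ≤ (X : ℝ) ^ (1 / 2 : ℝ) := Real.one_le_rpow (by linarith) (by norm_num)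
  have hNX : (X : ℝ) ^ (1 / 2 : ℝ) ≤ N := by
    have a1 : (3 * X : ℝ) / W < N + 1 := by
      rw [div_lt_iff₀ hW0]
      have : 3 * X < (N + 1) * W := by
        rw [hN]
        have := Nat.lt_div_mul_add (a := 3 * X) hW
        linarith
      exact_mod_cast this
    have a2 : 3 * (X : ℝ) ^ (1 / 2 : ℝ) ≤ (3 * X : ℝ) / W := by
      rw [le_div_iff₀ hW0]
      calc 3 * (X : ℝ) ^ (1 / 2 : ℝ) * W ≤ 3 * (X : ℝ) ^ (1 / 2 : ℝ) * (X : ℝ) ^ (1 / 2 : ℝ) :=
            mul_le_mul_of_nonneg_left hw.small (by positivity)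
        _ = 3 * X := by rw [mul_assoc, hsq]
    linarith
  have hNW : (N : ℝ) * W ≤ 3 * X := by
    have : N * W ≤ 3 * X := Nat.div_mul_le_self _ _
    exact_mod_cast this
  have hN0 : (0 : ℝ) < N := by linarith
  have hyK : y ^ K ≤ N := by
    have a1 : (y : ℝ) ^ K ≤ z ^ K := pow_le_pow_left₀ hy0.le hyz K
    have a2 : z ^ K = (X : ℝ) ^ (1 / 2 : ℝ) := by
      rw [hz, ← Real.rpow_natCast, ← Real.rpow_mul hX0.le]
      congr 1
      field_simp
    have a3 : ((y ^ K : ℕ) : ℝ) ≤ N := by push_cast; linarith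
    exact_mod_cast a3
  have hyX : y ≤ X := by
    have a1 : y ≤ y ^ K := Nat.le_self_pow (by omega) y
    have a2 : (N : ℝ) ≤ N := le_rfl
    have a3 : ((y ^ K : ℕ) : ℝ) ≤ (X : ℝ) ^ (1 / 2 : ℝ) := by
      push_cast
      have a1 : (y : ℝ) ^ K ≤ z ^ K := pow_le_pow_left₀ hy0.le hyz K
      have a2 : z ^ K = (X : ℝ) ^ (1 / 2 : ℝ) := by
        rw [hz, ← Real.rpow_natCast, ← Real.rpow_mul hX0.le]
        congr 1
        field_simp
      linarith
    have a4 : (X : ℝ) ^ (1 / 2 : ℝ) ≤ X := by nlinarith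
    have a5 : ((y ^ K : ℕ) : ℝ) ≤ X := a3.trans a4
    have a6 : y ^ K ≤ X := by exact_mod_cast a5
    omega
  have hsN : L ^ 2 * √(N : ℝ) ≤ N := by
    have a1 : L ^ 2 ≤ √(N : ℝ) := by
      refine h3.trans ?_
      have a2 : (X : ℝ) ^ (1 / 4 : ℝ) = √((X : ℝ) ^ (1 / 2 : ℝ)) := by
        rw [Real.sqrt_eq_rpow, ← Real.rpow_mul hX0.le]; norm_num
      rw [a2]
      exact Real.sqrt_le_sqrt hNX
    calc L ^ 2 * √(N : ℝ) ≤ √(N : ℝ) * √(N : ℝ) := mul_le_mul_of_nonneg_right a1 (Real.sqrt_nonneg _)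
      _ = N := Real.mul_self_sqrt hN0.le
  have hVy : Vz y ≤ D / L := by
    refine ((hV y hy2).2).trans ?_
    rw [hD, div_le_div_iff₀ (by have : 0 < L / (4 * K) := by positivity
                                linarith) hL0]
    have a1 : L ≤ 4 * K * Real.log y := by
      rw [div_le_iff₀ (by positivity)] at hlogy
      linarith
    calc C1 * L ≤ C1 * (4 * K * Real.log y) := mul_le_mul_of_nonneg_left a1 hC1.le
      _ = _ := by ring
  have hV0 : 0 ≤ Vz y := by
    refine Finset.prod_nonneg fun p hp => ?_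
    have h2 : (2 : ℝ) ≤ p := by exact_mod_cast (mem_pz.1 hp).2.two_le
    have h3 : 1 / (p : ℝ) ≤ 1 / 2 := one_div_le_one_div_of_le (by norm_num) h2
    linarith
  have hRH : ∑ n ∈ Icc 1 H, Pool.Agent.H646.rat n ≤ CR * H := by
    have := hR H
    simpa only [pow_one] using this
  have hrows := SMP.rows_sum N y X W u H hW hyX hw.prod (hF N y (by omega) hyK) CR hRH
  have hst := SMP.step1 X W w hw (fun n => (pc (n + u + H) - pc (n + u)) ^ 2) (fun n => sq_nonneg _)
  refine hst.trans ?_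
  rw [← hN]
  have hH0 : 0 < (H : ℝ) := by linarith
  set q : ℝ := H / L with hq
  have hHq : (H : ℝ) = q * L := by rw [hq]; field_simp
  have hq1 : 1 ≤ q := by rw [hq, le_div_iff₀ hL0]; linarith
  have hbound : 16 * CR * N * Vz y ^ 2 * H ^ 2 + 4 * N * Vz y * H + H ^ 2 * √(N : ℝ) ≤
      N * q ^ 2 * (16 * CR * D ^ 2 + 4 * D + 1) := by
    exact SMP.fin_arith CR N (Vz y) H √(N : ℝ) D L q hCR.le hN0.le hV0 hD0.le hq1 hL0 hVy hHq hsN
  have hWX : (20 * W / X : ℝ) * N ≤ 60 := by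
    rw [div_mul_eq_mul_div, div_le_iff₀ hX0]
    nlinarith
  calc (20 * W / X : ℝ) * ∑ r ∈ (Icc 1 N).filter (fun r => X < W * r),
        (pc (W * r + u + H) - pc (W * r + u)) ^ 2
      ≤ (20 * W / X : ℝ) * (N * q ^ 2 * (16 * CR * D ^ 2 + 4 * D + 1)) :=
        mul_le_mul_of_nonneg_left (hrows.trans hbound) (by positivity)
    _ = ((20 * W / X : ℝ) * N) * (q ^ 2 * (16 * CR * D ^ 2 + 4 * D + 1)) := by ring
    _ ≤ 60 * (q ^ 2 * (16 * CR * D ^ 2 + 4 * D + 1)) :=
        mul_le_mul_of_nonneg_right hWX (by positivity)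
    _ = _ := by ring

end Pool.Agent.N610.PL
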