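import Mathlib
import Pool.Agent.N610.PL.Stm

set_option autoImplicit false

/-!
# Most of a set of positions of positive proportion is steady (helper581)
-/

namespace Pool.Agent.N610.PL.ST

open Finset Filter

theorem changes_mono {x : ℕ} {lo hi lam lo' hi' lam' : ℝ} {k k' : ℕ} (h : Changes x lo hi lam k)
    (h1 : lo' ≤ lo) (h2 : hi ≤ hi') (h3 : lam' ≤ lam) (h4 : k' ≤ k) :
    Changes x lo' hi' lam' k' := by
  obtain ⟨s, t, h5, h6⟩ := h
  refine ⟨s, t, fun i hi => ?_, fun i hi => h6 i (by omega)⟩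
  obtain ⟨a, b, c, d⟩ := h5 i (by omega)
  exact ⟨h1.trans a, b, c.trans h2, h3.trans d⟩

theorem changes_le {x : ℕ} {lo hi lam : ℝ} {k : ℕ} (h : Changes x lo hi lam k) (h0 : 0 ≤ hi) :
    (k : ℝ) ≤ hi := by
  obtain ⟨s, t, h5, h6⟩ := h
  have h7 : ∀ i, i < k → i + 1 ≤ t i := by
    intro i
    induction i with
    | zero =>
      intro hi
      have := (h5 0 hi).2.1
      omega
    | succ i ih =>
      intro hi
      have h8 := ih (by omega)
      have h9 := h6 i hi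
      have h10 := (h5 (i + 1) hi).2.1
      omega
  rcases Nat.eq_zero_or_pos k with hk | hk
  · subst hk
    simpa using h0
  · have h8 := h7 (k - 1) (by omega)
    have h9 := (h5 (k - 1) (by omega)).2.2.1
    have h10 : (k : ℝ) ≤ t (k - 1) := by
      exact_mod_cast (by omega : k ≤ t (k - 1))
    linarith

theorem changes_one {x : ℕ} {lo hi lam : ℝ} {s t : ℕ} (h1 : lo ≤ s) (h2 : s < t)
    (h3 : (t : ℝ) ≤ hi) (h4 : lam ≤ |R x t - R x s|) : Changes x lo hi lam 1 :=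
  ⟨fun _ => s, fun _ => t, fun _ _ => ⟨h1, h2, h3, h4⟩, fun i hi => by omega⟩

/-- the pointwise part -/
theorem steady_of {A L M lam1 C3 : ℝ} {x r h0 : ℕ} (hA : 1 ≤ A) (hM : 0 ≤ M) (hl : 0 ≤ lam1)
    (hC3 : 0 ≤ C3) (hL : 0 ≤ L) (hx1 : L ≤ Real.log x) (hx2 : Real.log x ≤ L + 2)
    (hr : (L + 2) ^ A ≤ 2 ^ r) (hh1 : L ≤ h0) (hh2 : (h0 : ℝ) ≤ 2 ^ r) (hT : R x h0 < C3)
    (hB : ¬ Changes x L (2 ^ r) lam1 1)
    (hj : ∀ j < r, ¬ Changes x L (2 ^ r) ((1 / 2) ^ j) (⌊M * 4 ^ j * (j + 1) ^ 2⌋₊ + 1)) :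
    Steady A (C3 + lam1 + 36 * M + 5) x := by
  have hxr : Real.log x ^ A ≤ 2 ^ r :=
    (Real.rpow_le_rpow (hL.trans hx1) hx2 (by linarith)).trans hr
  constructor
  · intro h ha hb
    have h1 : L ≤ h := hx1.trans ha
    have h2 : (h : ℝ) ≤ 2 ^ r := hb.trans hxr
    rcases lt_trichotomy h h0 with h3 | h3 | h3
    · have h4 : ¬ lam1 ≤ |R x h0 - R x h| := fun h5 => hB (changes_one h1 h3 hh2 h5)
      rw [not_le, abs_lt] at h4
      linarith [h4.1, h4.2]
    · rw [h3]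
      linarith
    · have h4 : ¬ lam1 ≤ |R x h - R x h0| := fun h5 => hB (changes_one hh1 h3 h2 h5)
      rw [not_le, abs_lt] at h4
      linarith [h4.1, h4.2]
  · intro lam hl0 hl1 k hk
    have hk1 : Changes x L (2 ^ r) lam k := changes_mono hk hx1 hxr le_rfl le_rfl
    have hlog2 : 0.69 < Real.log 2 := by
      have := Real.log_two_gt_d9
      linarith
    obtain ⟨Λ, hΛ⟩ : ∃ Λ, Λ = Real.log (2 / lam) := ⟨_, rfl⟩
    have hΛ2 : Real.log 2 ≤ Λ := by
      rw [hΛ]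
      apply Real.log_le_log (by norm_num)
      rw [le_div_iff₀ hl0]
      nlinarith
    rw [← hΛ]
    have hq : ∃ j : ℕ, (1 / 2 : ℝ) ^ j ≤ lam := by
      obtain ⟨j, hj⟩ := exists_pow_lt_of_lt_one hl0 (show (1 / 2 : ℝ) < 1 by norm_num)
      exact ⟨j, hj.le⟩
    classical
    obtain ⟨j, hj1, hj2⟩ : ∃ j : ℕ, (1 / 2 : ℝ) ^ j ≤ lam ∧ (2 : ℝ) ^ j ≤ 2 / lam := by
      refine ⟨Nat.find hq, Nat.find_spec hq, ?_⟩
      rcases Nat.eq_zero_or_pos (Nat.find hq) with h | h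
      · rw [h, pow_zero, le_div_iff₀ hl0]
        linarith
      · have h1 := Nat.find_min hq (show Nat.find hq - 1 < Nat.find hq by omega)
        rw [not_le] at h1
        obtain ⟨i, hi⟩ : ∃ i, Nat.find hq = i + 1 := ⟨Nat.find hq - 1, by omega⟩
        rw [hi] at h1 ⊢
        rw [Nat.add_sub_cancel] at h1
        rw [le_div_iff₀ hl0, pow_succ]
        have h2 : (2 : ℝ) ^ i * (1 / 2) ^ i = 1 := by
          rw [← mul_pow]
          norm_num
        have h3 : (0 : ℝ) < 2 ^ i := by positivity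
        have h4 : (2 : ℝ) ^ i * lam ≤ 2 ^ i * (1 / 2) ^ i :=
          mul_le_mul_of_nonneg_left h1.le h3.le
        rw [h2] at h4
        linarith
    have hjΛ : ((j : ℝ) + 1) ≤ 3 * Λ := by
      have h1 : (j : ℝ) * Real.log 2 ≤ Λ := by
        rw [hΛ, ← Real.log_pow]
        exact Real.log_le_log (by positivity) hj2
      nlinarith
    have hsq : (0 : ℝ) ≤ (Λ / lam) ^ 2 := sq_nonneg _
    by_cases hjr : j < r
    · have h1 : Changes x L (2 ^ r) ((1 / 2) ^ j) k := changes_mono hk1 le_rfl le_rfl hj1 le_rfl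
      have h2 : k ≤ ⌊M * 4 ^ j * (j + 1) ^ 2⌋₊ := by
        by_contra hcon
        exact hj j hjr (changes_mono h1 le_rfl le_rfl le_rfl (by omega))
      have h3 : (k : ℝ) ≤ M * 4 ^ j * (j + 1) ^ 2 := by
        have h4 : (0 : ℝ) ≤ M * 4 ^ j * (j + 1) ^ 2 := by positivity
        exact (Nat.cast_le.2 h2).trans (Nat.floor_le h4)
      have h4 : (4 : ℝ) ^ j ≤ (2 / lam) ^ 2 := by
        have h5 : (4 : ℝ) ^ j = (2 ^ j) ^ 2 := by
          rw [← pow_mul, mul_comm, pow_mul]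
          norm_num
        rw [h5]
        exact pow_le_pow_left₀ (by positivity) hj2 2
      have h5 : ((j : ℝ) + 1) ^ 2 ≤ (3 * Λ) ^ 2 := pow_le_pow_left₀ (by positivity) hjΛ 2
      have h6 : (4 : ℝ) ^ j * ((j : ℝ) + 1) ^ 2 ≤ (2 / lam) ^ 2 * (3 * Λ) ^ 2 :=
        mul_le_mul h4 h5 (by positivity) (by positivity)
      have h7 : (2 / lam) ^ 2 * (3 * Λ) ^ 2 = 36 * (Λ / lam) ^ 2 := by
        field_simp
        ring
      have h8 : M * 4 ^ j * ((j : ℝ) + 1) ^ 2 ≤ M * (36 * (Λ / lam) ^ 2) := by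
        rw [mul_assoc, ← h7]
        exact mul_le_mul_of_nonneg_left h6 hM
      nlinarith [mul_nonneg hC3 hsq, mul_nonneg hl hsq]
    · have h1 : (k : ℝ) ≤ 2 ^ r := changes_le hk1 (by positivity)
      have h2 : (2 : ℝ) ^ r ≤ 2 ^ j := pow_le_pow_right₀ (by norm_num) (by omega)
      have h3 : (k : ℝ) ≤ 2 / lam := h1.trans (h2.trans hj2)
      have h4 : 2 / lam ≤ 5 * (Λ / lam) ^ 2 := by
        rw [div_pow, ← mul_div_assoc, div_le_div_iff₀ hl0 (by positivity)]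
        have h5 : (0.69 : ℝ) ^ 2 ≤ Λ ^ 2 := pow_le_pow_left₀ (by norm_num) (by linarith) 2
        have h6 : lam ^ 2 ≤ lam := by nlinarith
        nlinarith
      nlinarith [mul_nonneg hC3 hsq, mul_nonneg hl hsq, mul_nonneg hM hsq]

open Classical in
/-- the measure of a set of positions -/
noncomputable def mu (X T : ℕ) (w : ℕ → ℝ) (E : ℕ → ℕ → Prop) : ℝ :=
  ∑ n ∈ Icc 1 (3 * X), w n * (((range T).filter (fun v => E n v)).card : ℝ)

theorem mu_mono {X T T' : ℕ} {w : ℕ → ℝ} {E F : ℕ → ℕ → Prop} (hw : ∀ n, 0 ≤ w n) (hT : T ≤ T')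
    (h : ∀ n v, w n ≠ 0 → v < T → E n v → F n v) : mu X T w E ≤ mu X T' w F := by
  classical
  unfold mu
  refine Finset.sum_le_sum fun n _ => ?_
  by_cases hn : w n = 0
  · rw [hn, zero_mul, zero_mul]
  · refine mul_le_mul_of_nonneg_left ?_ (hw n)
    norm_cast
    apply Finset.card_le_card
    intro v hv
    rw [Finset.mem_filter, Finset.mem_range] at *
    exact ⟨lt_of_lt_of_le hv.1 hT, h n v hn hv.1 hv.2⟩

theorem mu_union {X T : ℕ} {w : ℕ → ℝ} {E F G : ℕ → ℕ → Prop} (hw : ∀ n, 0 ≤ w n)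
    (h : ∀ n v, w n ≠ 0 → v < T → E n v → F n v ∨ G n v) :
    mu X T w E ≤ mu X T w F + mu X T w G := by
  classical
  unfold mu
  rw [← Finset.sum_add_distrib]
  refine Finset.sum_le_sum fun n _ => ?_
  by_cases hn : w n = 0
  · rw [hn, zero_mul, zero_mul, zero_mul, add_zero]
  · rw [← mul_add]
    refine mul_le_mul_of_nonneg_left ?_ (hw n)
    norm_cast
    refine le_trans (Finset.card_le_card ?_) (Finset.card_union_le _ _)
    intro v hv
    rw [Finset.mem_union, Finset.mem_filter, Finset.mem_filter]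
    rw [Finset.mem_filter] at hv
    rcases h n v hn (Finset.mem_range.1 hv.1) hv.2 with h1 | h1
    · exact Or.inl ⟨hv.1, h1⟩
    · exact Or.inr ⟨hv.1, h1⟩

theorem mu_false {X T : ℕ} {w : ℕ → ℝ} : mu X T w (fun _ _ => False) = 0 := by
  unfold mu
  simp

theorem mu_iUnion {X T : ℕ} {w : ℕ → ℝ} (E : ℕ → ℕ → ℕ → Prop) (hw : ∀ n, 0 ≤ w n) (r : ℕ) :
    mu X T w (fun n v => ∃ j < r, E j n v) ≤ ∑ j ∈ range r, mu X T w (E j) := by
  induction r with
  | zero =>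
    have h : (fun n v => ∃ j < 0, E j n v) = fun _ _ => False := by
      funext n v
      simp
    rw [h, mu_false]
    simp
  | succ r ih =>
    rw [Finset.sum_range_succ]
    refine le_trans (mu_union hw (F := fun n v => ∃ j < r, E j n v) (G := E r) ?_)
      (add_le_add ih le_rfl)
    rintro n v _ _ ⟨j, hj, hE⟩
    rcases Nat.lt_succ_iff_lt_or_eq.1 hj with h | h
    · exact Or.inl ⟨j, h, hE⟩
    · subst h
      exact Or.inr hE

theorem sum_sq (r : ℕ) : ∑ j ∈ range r, 1 / ((j : ℝ) + 1) ^ 2 ≤ 2 := by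
  have h : ∀ r : ℕ, ∑ j ∈ range (r + 1), 1 / ((j : ℝ) + 1) ^ 2 ≤ 2 - 1 / ((r : ℝ) + 1) := by
    intro r
    induction r with
    | zero => norm_num
    | succ r ih =>
      rw [Finset.sum_range_succ]
      have h1 : 1 / (((r + 1 : ℕ) : ℝ) + 1) ^ 2 ≤ 1 / ((r : ℝ) + 1) - 1 / (((r + 1 : ℕ) : ℝ) + 1) := by
        push_cast
        rw [div_sub_div _ _ (by positivity) (by positivity),
          div_le_div_iff₀ (by positivity) (by positivity)]
        nlinarith [show (0 : ℝ) ≤ r from Nat.cast_nonneg r]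
      linarith
  rcases Nat.eq_zero_or_pos r with h1 | h1
  · subst h1
    norm_num
  · obtain ⟨s, rfl⟩ : ∃ s, r = s + 1 := ⟨r - 1, by omega⟩
    have h2 : (0 : ℝ) ≤ 1 / ((s : ℝ) + 1) := by positivity
    linarith [h s]

/-- the counting -/
theorem count {X W T : ℕ} {w : ℕ → ℝ} (hR : Rows X W w) (F : Finset ℕ) :
    mu X T w (fun n v => n + v ∈ F) ≤ 20 * W / X * (T * F.card) := by
  classical
  have h0 : (0 : ℝ) ≤ 20 * W / X := by positivity
  have e : mu X T w (fun n v => n + v ∈ F) ≤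
      ∑ n ∈ Icc 1 (3 * X), 20 * W / X * (((range T).filter (fun v => n + v ∈ F)).card : ℝ) := by
    unfold mu
    refine Finset.sum_le_sum fun n _ => ?_
    refine mul_le_mul (hR.le n) ?_ (Nat.cast_nonneg _) h0
    norm_cast
    apply Finset.card_le_card
    intro v hv
    simp only [Finset.mem_filter] at hv ⊢
    exact hv
  refine e.trans ?_
  calc ∑ n ∈ Icc 1 (3 * X), 20 * W / X * (((range T).filter (fun v => n + v ∈ F)).card : ℝ)
      = 20 * W / X * ∑ n ∈ Icc 1 (3 * X), (((range T).filter (fun v => n + v ∈ F)).card : ℝ) := by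
        rw [Finset.mul_sum]
    _ ≤ 20 * W / X * (T * F.card) := by
        refine mul_le_mul_of_nonneg_left ?_ h0
        norm_cast
        calc ∑ n ∈ Icc 1 (3 * X), ((range T).filter (fun v => n + v ∈ F)).card
            = ∑ n ∈ Icc 1 (3 * X), ∑ v ∈ range T, (if n + v ∈ F then 1 else 0) := by
              refine Finset.sum_congr rfl fun n _ => ?_
              rw [Finset.card_filter]
          _ = ∑ v ∈ range T, ∑ n ∈ Icc 1 (3 * X), (if n + v ∈ F then 1 else 0) :=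
              Finset.sum_comm
          _ ≤ ∑ v ∈ range T, F.card := by
              refine Finset.sum_le_sum fun v _ => ?_
              rw [← Finset.card_filter]
              apply Finset.card_le_card_of_injOn (fun n => n + v)
              · intro n hn
                rw [Finset.mem_coe, Finset.mem_filter] at hn
                exact hn.2
              · intro a _ b _ h
                simpa using h
          _ = T * F.card := by
              rw [Finset.sum_const, Finset.card_range, smul_eq_mul]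

/-- Chebyshev -/
theorem top {X T h0 : ℕ} {w : ℕ → ℝ} {L C1 C3 : ℝ} (hw : ∀ n, 0 ≤ w n) (hL : 0 < L)
    (hC3 : 0 < C3) (hh1 : L ≤ h0) (hh2 : (h0 : ℝ) ≤ 2 * L) (hC1 : 0 ≤ C1)
    (hlog : ∀ n v, w n ≠ 0 → v < T → 0 ≤ Real.log (n + v : ℕ) ∧ Real.log (n + v : ℕ) ≤ 2 * L)
    (hSM : ∀ u : ℕ, ∑ n ∈ Icc 1 (3 * X), w n * (pc (n + u + h0) - pc (n + u)) ^ 2 ≤
      C1 * (h0 / L) ^ 2) :
    mu X T w (fun n v => C3 ≤ R (n + v) h0) ≤ 16 * C1 / C3 ^ 2 * T := by
  classical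
  have hh0 : (0 : ℝ) < h0 := lt_of_lt_of_le hL hh1
  have hv : ∀ v, v < T → ∑ n ∈ Icc 1 (3 * X), w n * (if C3 ≤ R (n + v) h0 then (1 : ℝ) else 0) ≤
      16 * C1 / C3 ^ 2 := by
    intro v hv
    have h1 : ∀ n ∈ Icc 1 (3 * X), w n * (if C3 ≤ R (n + v) h0 then (1 : ℝ) else 0) ≤
        (4 / C3 ^ 2) * (w n * (pc (n + v + h0) - pc (n + v)) ^ 2) := by
      intro n _
      by_cases hn : w n = 0
      · rw [hn, zero_mul, zero_mul, mul_zero]
      · rw [mul_left_comm]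
        refine mul_le_mul_of_nonneg_left ?_ (hw n)
        obtain ⟨a1, a2⟩ := hlog n v hn hv
        split_ifs with h
        · unfold R at h
          obtain ⟨Δ, hΔ⟩ : ∃ Δ, Δ = pc (n + v + h0) - pc (n + v) := ⟨_, rfl⟩
          rw [← hΔ] at h ⊢
          rw [le_div_iff₀ hh0] at h
          have h2 : C3 * L ≤ Δ * Real.log (n + v : ℕ) :=
            (mul_le_mul_of_nonneg_left hh1 hC3.le).trans h
          have h3 : 0 < C3 * L := mul_pos hC3 hL
          have h4 : 0 ≤ Δ := by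
            by_contra hcon
            rw [not_le] at hcon
            have := mul_nonpos_of_nonpos_of_nonneg hcon.le a1
            linarith
          have h5 : Δ * Real.log (n + v : ℕ) ≤ Δ * (2 * L) := mul_le_mul_of_nonneg_left a2 h4
          have h6 : C3 ≤ 2 * Δ := by
            have : C3 * L ≤ 2 * Δ * L := by linarith
            exact le_of_mul_le_mul_right this hL
          rw [div_mul_eq_mul_div, le_div_iff₀ (by positivity), one_mul]
          nlinarith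
        · positivity
    calc _ ≤ ∑ n ∈ Icc 1 (3 * X), (4 / C3 ^ 2) * (w n * (pc (n + v + h0) - pc (n + v)) ^ 2) :=
          Finset.sum_le_sum h1
      _ = (4 / C3 ^ 2) * ∑ n ∈ Icc 1 (3 * X), (w n * (pc (n + v + h0) - pc (n + v)) ^ 2) := by
          rw [Finset.mul_sum]
      _ ≤ (4 / C3 ^ 2) * (C1 * (h0 / L) ^ 2) :=
          mul_le_mul_of_nonneg_left (hSM v) (by positivity)
      _ ≤ (4 / C3 ^ 2) * (C1 * 4) := by
          refine mul_le_mul_of_nonneg_left (mul_le_mul_of_nonneg_left ?_ hC1) (by positivity)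
          have : (h0 : ℝ) / L ≤ 2 := by rw [div_le_iff₀ hL]; exact hh2
          have h5 : 0 ≤ (h0 : ℝ) / L := by positivity
          nlinarith
      _ = 16 * C1 / C3 ^ 2 := by ring
  have e : mu X T w (fun n v => C3 ≤ R (n + v) h0) =
      ∑ v ∈ range T, ∑ n ∈ Icc 1 (3 * X), w n * (if C3 ≤ R (n + v) h0 then (1 : ℝ) else 0) := by
    unfold mu
    rw [Finset.sum_comm]
    refine Finset.sum_congr rfl fun n _ => ?_
    rw [← Finset.mul_sum]
    congr 1
    rw [Finset.card_filter]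
    push_cast
    refine Finset.sum_congr rfl fun v _ => ?_
    by_cases h : C3 ≤ R (n + v) h0
    · rw [if_pos h]
    · rw [if_neg h]
  rw [e]
  calc _ ≤ ∑ v ∈ range T, 16 * C1 / C3 ^ 2 :=
        Finset.sum_le_sum fun v hv' => hv v (Finset.mem_range.1 hv')
    _ = 16 * C1 / C3 ^ 2 * T := by
        rw [Finset.sum_const, Finset.card_range, nsmul_eq_mul, mul_comm]

/-- the part for a fixed `X` -/
theorem main {A c C1 C2 M lam1 C3 ε L : ℝ} {X W T : ℕ} {w : ℕ → ℝ} (hA : 1 ≤ A) (hc : 0 < c)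
    (hC1 : 0 < C1) (hC2 : 0 < C2) (hM : M = 32 * C2 / c) (hl : 0 < lam1)
    (hl2 : lam1 ^ 2 = 16 * C2 / c) (hC3 : 0 < C3) (hC32 : C3 ^ 2 = 128 * C1 / c)
    (hLX : L = Real.log X) (hR : Rows X W w) (hW : (W : ℝ) ≤ (X : ℝ) ^ (ε / 2))
    (hSM : ∀ u H : ℕ, L ≤ H → ∑ n ∈ Icc 1 (3 * X), w n * (pc (n + u + H) - pc (n + u)) ^ 2 ≤
      C1 * (H / L) ^ 2)
    (hJR : ∀ r : ℕ, L ≤ 2 ^ r → 2 ^ r ≤ X → ∀ lam : ℝ, 0 < lam → ∀ K : ℕ, 1 ≤ K →
      mu X (2 ^ r) w (fun n v => Changes (n + v) L (2 ^ r) lam K) ≤ C2 * 2 ^ r / (lam ^ 2 * K))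
    (hL4 : 4 ≤ L) (hLA : 2 ^ A ≤ L) (hT1 : L ^ (A + 1) ≤ T) (hT2 : (T : ℝ) ≤ X / 4)
    (hε : 40 / c ≤ (X : ℝ) ^ (ε / 2)) (P : ℕ → Prop)
    (hP : c * T ≤ mu X T w (fun n v => P (n + v))) (F : Finset ℕ)
    (hF : ∀ x, X < x → x ≤ 4 * X → P x → Steady A (C3 + lam1 + 36 * M + 5) x → x ∈ F) :
    (X : ℝ) ^ (1 - ε) ≤ F.card := by
  classical
  have hL0 : 0 < L := by linarith
  have hX0 : 0 < X := by
    rcases Nat.eq_zero_or_pos X with h | h
    · rw [h] at hLX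
      norm_num at hLX
      linarith
    · exact h
  have hXR : (0 : ℝ) < X := by exact_mod_cast hX0
  -- T
  have hLL : L ^ (2 : ℝ) ≤ L ^ (A + 1) := Real.rpow_le_rpow_of_exponent_le (by linarith) (by linarith)
  have hLL2 : L ^ (2 : ℝ) = L * L := by
    rw [Real.rpow_two, sq]
  have hT3 : L * L ≤ T := by
    rw [← hLL2]
    exact hLL.trans hT1
  have hLL4 : 4 * L ≤ L * L := mul_le_mul_of_nonneg_right hL4 hL0.le
  have hA1 : (L + 2) ^ A ≤ T := by
    have h1 : (L + 2) ^ A ≤ (2 * L) ^ A :=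
      Real.rpow_le_rpow (by positivity) (by linarith only [hL4]) (by linarith only [hA])
    have h2 : (2 * L) ^ A = 2 ^ A * L ^ A := Real.mul_rpow (by norm_num) hL0.le
    have h3 : (2 : ℝ) ^ A * L ^ A ≤ L * L ^ A :=
      mul_le_mul_of_nonneg_right hLA (Real.rpow_nonneg hL0.le _)
    have h4 : L * L ^ A = L ^ (A + 1) := by
      rw [Real.rpow_add hL0, Real.rpow_one, mul_comm]
    rw [h2] at h1
    rw [h4] at h3
    exact h1.trans (h3.trans hT1)
  clear hT1 hLL hLL2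
  have hT4 : (2 : ℝ) < T := by linarith
  have hT5 : 2 < T := by exact_mod_cast hT4
  obtain ⟨r, hr⟩ : ∃ r, r = Nat.clog 2 T := ⟨_, rfl⟩
  have hr1 : T ≤ 2 ^ r := by
    rw [hr]
    exact Nat.le_pow_clog (by norm_num) T
  have hr2 : 2 ^ r < 2 * T := by
    have h1 := Nat.pow_pred_clog_lt_self (b := 2) (by norm_num) (x := T) (by omega)
    rw [← hr] at h1
    have h2 : 0 < r := by
      rcases Nat.eq_zero_or_pos r with h | h
      · rw [h] at hr1
        omega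
      · exact h
    obtain ⟨s, hs⟩ : ∃ s, r = s + 1 := ⟨r - 1, by omega⟩
    rw [hs] at h1 ⊢
    rw [Nat.pred_succ] at h1
    rw [pow_succ]
    omega
  have hr1' : (T : ℝ) ≤ 2 ^ r := by exact_mod_cast hr1
  have hr2' : (2 : ℝ) ^ r ≤ 2 * T := by exact_mod_cast hr2.le
  have hrX : 2 ^ r ≤ X := by
    have : (2 : ℝ) ^ r ≤ X := by linarith
    exact_mod_cast this
  have hLr : L ≤ 2 ^ r := by linarith
  have hA2 : (L + 2) ^ A ≤ 2 ^ r := hA1.trans hr1'
  -- h0
  obtain ⟨h0, hh0⟩ : ∃ h0, h0 = ⌈L + 2⌉₊ := ⟨_, rfl⟩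
  have hh1 : L ≤ h0 := by
    rw [hh0]
    exact (by linarith : L ≤ L + 2).trans (Nat.le_ceil _)
  have hh2 : (h0 : ℝ) ≤ 2 * L := by
    rw [hh0]
    have := Nat.ceil_lt_add_one (show 0 ≤ L + 2 by linarith)
    linarith
  have hh3 : (h0 : ℝ) ≤ 2 ^ r := by linarith
  -- the positions
  have hpos : ∀ n v, w n ≠ 0 → v < T → X < n + v ∧ n + v ≤ 4 * X := by
    intro n v hn hv
    obtain ⟨a1, a2, -⟩ := hR.supp n hn
    have h1 : (v : ℝ) < X := by
      have : (v : ℝ) < T := by exact_mod_cast hv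
      linarith
    have h2 : v < X := by exact_mod_cast h1
    omega
  have hlog : ∀ x : ℕ, X < x → x ≤ 4 * X → L ≤ Real.log x ∧ Real.log x ≤ L + 2 := by
    intro x h1 h2
    have h1' : (X : ℝ) ≤ x := by exact_mod_cast h1.le
    have h2' : (x : ℝ) ≤ 4 * X := by exact_mod_cast h2
    refine ⟨by rw [hLX]; exact Real.log_le_log hXR h1', ?_⟩
    have h3 : Real.log x ≤ Real.log (4 * X) := Real.log_le_log (by linarith) h2'
    rw [Real.log_mul (by norm_num) hXR.ne', ← hLX] at h3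
    have h4 : Real.log 4 ≤ 2 := by
      have h5 : Real.log 4 = 2 * Real.log 2 := by
        rw [show (4 : ℝ) = 2 ^ 2 by norm_num, Real.log_pow]
        norm_num
      have := Real.log_two_lt_d9
      linarith
    linarith
  -- the bad events
  have hMpos : 0 < M := by rw [hM]; positivity
  have b1 : mu X T w (fun n v => ∃ j < r,
      Changes (n + v) L (2 ^ r) ((1 / 2) ^ j) (⌊M * 4 ^ j * (j + 1) ^ 2⌋₊ + 1)) ≤ c * T / 8 := by
    refine (mu_iUnion (fun j n v => Changes (n + v) L (2 ^ r) ((1 / 2) ^ j)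
      (⌊M * 4 ^ j * (j + 1) ^ 2⌋₊ + 1)) hR.nonneg r).trans ?_
    have h1 : ∀ j ∈ range r, mu X T w (fun n v => Changes (n + v) L (2 ^ r) ((1 / 2) ^ j)
        (⌊M * 4 ^ j * (j + 1) ^ 2⌋₊ + 1)) ≤ C2 * 2 ^ r / M * (1 / ((j : ℝ) + 1) ^ 2) := by
      intro j _
      refine (mu_mono hR.nonneg hr1 (fun _ _ _ _ h => h)).trans ?_
      refine (hJR r hLr hrX ((1 / 2) ^ j) (by positivity) _ (by omega)).trans ?_
      have h2 : M * 4 ^ j * (j + 1) ^ 2 ≤ ((⌊M * 4 ^ j * (j + 1) ^ 2⌋₊ + 1 : ℕ) : ℝ) := by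
        push_cast
        exact (Nat.lt_floor_add_one _).le
      have h3 : M * ((j : ℝ) + 1) ^ 2 ≤
          ((1 / 2 : ℝ) ^ j) ^ 2 * ((⌊M * 4 ^ j * (j + 1) ^ 2⌋₊ + 1 : ℕ) : ℝ) := by
        have h4 : ((1 / 2 : ℝ) ^ j) ^ 2 * 4 ^ j = 1 := by
          rw [← pow_mul, mul_comm j 2, pow_mul, ← mul_pow]
          norm_num
        calc M * ((j : ℝ) + 1) ^ 2 = ((1 / 2 : ℝ) ^ j) ^ 2 * 4 ^ j * (M * ((j : ℝ) + 1) ^ 2) := by
              rw [h4, one_mul]
          _ = ((1 / 2 : ℝ) ^ j) ^ 2 * (M * 4 ^ j * (j + 1) ^ 2) := by ring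
          _ ≤ _ := mul_le_mul_of_nonneg_left h2 (by positivity)
      calc C2 * 2 ^ r / (((1 / 2 : ℝ) ^ j) ^ 2 * ((⌊M * 4 ^ j * (j + 1) ^ 2⌋₊ + 1 : ℕ) : ℝ))
          ≤ C2 * 2 ^ r / (M * ((j : ℝ) + 1) ^ 2) :=
            div_le_div_of_nonneg_left (by positivity) (by positivity) h3
        _ = C2 * 2 ^ r / M * (1 / ((j : ℝ) + 1) ^ 2) := by
            field_simp
    refine (Finset.sum_le_sum h1).trans ?_
    rw [← Finset.mul_sum]
    have h5 : (0 : ℝ) ≤ C2 * 2 ^ r / M := by positivity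
    calc C2 * 2 ^ r / M * ∑ j ∈ range r, 1 / ((j : ℝ) + 1) ^ 2 ≤ C2 * 2 ^ r / M * 2 :=
          mul_le_mul_of_nonneg_left (sum_sq r) h5
      _ ≤ C2 * (2 * T) / M * 2 := by gcongr
      _ = c * T / 8 := by
          rw [hM]
          field_simp
          ring
  have b2 : mu X T w (fun n v => Changes (n + v) L (2 ^ r) lam1 1) ≤ c * T / 8 := by
    refine (mu_mono hR.nonneg hr1 (fun _ _ _ _ h => h)).trans ?_
    refine (hJR r hLr hrX lam1 hl 1 le_rfl).trans ?_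
    rw [Nat.cast_one, mul_one, hl2]
    calc C2 * 2 ^ r / (16 * C2 / c) ≤ C2 * (2 * T) / (16 * C2 / c) := by gcongr
      _ = c * T / 8 := by
          field_simp
          ring
  have b3 : mu X T w (fun n v => C3 ≤ R (n + v) h0) ≤ c * T / 8 := by
    refine (top hR.nonneg hL0 hC3 hh1 hh2 hC1.le ?_ (fun u => hSM u h0 hh1)).trans ?_
    · intro n v hn hv
      obtain ⟨a1, a2⟩ := hpos n v hn hv
      obtain ⟨a3, a4⟩ := hlog (n + v) a1 a2
      exact ⟨by linarith, by linarith⟩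
    · rw [hC32]
      apply le_of_eq
      field_simp
      ring
  -- the union
  have u1 : mu X T w (fun n v => P (n + v)) ≤ mu X T w (fun n v => n + v ∈ F) +
      (mu X T w (fun n v => ∃ j < r,
        Changes (n + v) L (2 ^ r) ((1 / 2) ^ j) (⌊M * 4 ^ j * (j + 1) ^ 2⌋₊ + 1)) +
      (mu X T w (fun n v => Changes (n + v) L (2 ^ r) lam1 1) +
        mu X T w (fun n v => C3 ≤ R (n + v) h0))) := by
    refine (mu_union hR.nonneg (F := fun n v => n + v ∈ F) (G := fun n v => (∃ j < r,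
        Changes (n + v) L (2 ^ r) ((1 / 2) ^ j) (⌊M * 4 ^ j * (j + 1) ^ 2⌋₊ + 1)) ∨
        (Changes (n + v) L (2 ^ r) lam1 1 ∨ C3 ≤ R (n + v) h0)) ?_).trans
      (add_le_add le_rfl ((mu_union hR.nonneg (fun _ _ _ _ h => h)).trans
        (add_le_add le_rfl (mu_union hR.nonneg (fun _ _ _ _ h => h)))))
    intro n v hn hv hPv
    by_contra hcon
    rw [not_or, not_or, not_or] at hcon
    obtain ⟨d1, d2, d3, d4⟩ := hcon
    obtain ⟨a1, a2⟩ := hpos n v hn hv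
    obtain ⟨a3, a4⟩ := hlog (n + v) a1 a2
    apply d1
    refine hF _ a1 a2 hPv (steady_of hA hMpos.le hl.le hC3.le hL0.le a3 a4 hA2 hh1 hh3
      (not_le.1 d4) d3 ?_)
    intro j hj hCh
    exact d2 ⟨j, hj, hCh⟩
  have u2 := count (T := T) hR F
  have hTpos : (0 : ℝ) < T := by linarith
  have hcT : 0 < c * T := mul_pos hc hTpos
  have u3 : c * T / 2 ≤ 20 * W / X * (T * F.card) := by
    linarith only [hcT, u2, u1, b1, b2, b3, hP]
  have hWpos : (0 : ℝ) < W := by exact_mod_cast hR.pos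
  have u4 : c * X / (40 * W) ≤ F.card := by
    rw [div_le_iff₀ (by positivity)]
    rw [div_mul_eq_mul_div, le_div_iff₀ hXR] at u3
    have h1 : T * (c * X) ≤ T * (F.card * (40 * W)) := by linarith
    exact le_of_mul_le_mul_left h1 hTpos
  refine le_trans ?_ u4
  rw [le_div_iff₀ (by positivity)]
  have v1 : (X : ℝ) ^ (1 - ε) * (X : ℝ) ^ (ε / 2) * (X : ℝ) ^ (ε / 2) = X := by
    rw [← Real.rpow_add hXR, ← Real.rpow_add hXR]
    have : 1 - ε + ε / 2 + ε / 2 = 1 := by ring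
    rw [this, Real.rpow_one]
  have v2 : (0 : ℝ) < (X : ℝ) ^ (1 - ε) := Real.rpow_pos_of_pos hXR _
  have v3 : 40 ≤ c * (X : ℝ) ^ (ε / 2) := by
    rw [div_le_iff₀ hc] at hε
    linarith
  calc (X : ℝ) ^ (1 - ε) * (40 * W) ≤ (X : ℝ) ^ (1 - ε) * (40 * (X : ℝ) ^ (ε / 2)) := by gcongr
    _ ≤ (X : ℝ) ^ (1 - ε) * (c * (X : ℝ) ^ (ε / 2) * (X : ℝ) ^ (ε / 2)) := by gcongr
    _ = c * ((X : ℝ) ^ (1 - ε) * (X : ℝ) ^ (ε / 2) * (X : ℝ) ^ (ε / 2)) := by ring
    _ = c * X := by rw [v1]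

end Pool.Agent.N610.PL.ST

namespace Pool.Agent.N610.PL

open Finset Filter

/-- most of a set of positions of positive proportion is steady -/
theorem t_ST (h1 : S_SM) (h2 : S_JR) : S_ST := by
  classical
  intro A c hA hc
  obtain ⟨C1, hC1, hSM⟩ := h1
  obtain ⟨C2, hC2, hJR⟩ := h2
  obtain ⟨lam1, hl, hl2⟩ : ∃ l : ℝ, 0 < l ∧ l ^ 2 = 16 * C2 / c :=
    ⟨Real.sqrt (16 * C2 / c), Real.sqrt_pos.2 (by positivity), Real.sq_sqrt (by positivity)⟩
  obtain ⟨C3, hC3, hC32⟩ : ∃ l : ℝ, 0 < l ∧ l ^ 2 = 128 * C1 / c :=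
    ⟨Real.sqrt (128 * C1 / c), Real.sqrt_pos.2 (by positivity), Real.sq_sqrt (by positivity)⟩
  obtain ⟨M, hM⟩ : ∃ M, M = 32 * C2 / c := ⟨_, rfl⟩
  have hM0 : 0 < M := by rw [hM]; positivity
  refine ⟨C3 + lam1 + 36 * M + 5, by positivity, ?_⟩
  intro B ε hε
  have hlogt : Tendsto (fun X : ℕ => Real.log X) atTop atTop :=
    Real.tendsto_log_atTop.comp tendsto_natCast_atTop_atTop
  have e1 : ∀ᶠ X : ℕ in atTop, 4 ≤ Real.log X := hlogt.eventually_ge_atTop 4
  have e2 : ∀ᶠ X : ℕ in atTop, (2 : ℝ) ^ A ≤ Real.log X := hlogt.eventually_ge_atTop _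
  have e3 : ∀ᶠ X : ℕ in atTop, Real.log X ^ B ≤ X / 4 := by
    have h := (isLittleO_log_rpow_rpow_atTop B (s := 1) one_pos).bound
      (show (0 : ℝ) < 1 / 4 by norm_num)
    have h' := tendsto_natCast_atTop_atTop (R := ℝ) |>.eventually h
    filter_upwards [h'] with X hX
    rw [Real.rpow_one, Real.norm_eq_abs, Real.norm_eq_abs, Nat.abs_cast] at hX
    linarith [le_abs_self (Real.log X ^ B)]
  have e4 : ∀ᶠ X : ℕ in atTop, 40 / c ≤ (X : ℝ) ^ (ε / 2) :=
    ((tendsto_rpow_atTop (show 0 < ε / 2 by linarith)).comp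
      (tendsto_natCast_atTop_atTop (R := ℝ))).eventually_ge_atTop _
  filter_upwards [hSM, hJR, e1, e2, e3, e4] with X g1 g2 g3 g4 g5 g6
  intro W w hR hW T hT1 hT2 P hP
  refine ST.main hA hc hC1 hC2 hM hl hl2 hC3 hC32 rfl hR hW (fun u H h => g1 W w hR u H h) ?_ g3 g4
    hT1 (hT2.trans g5) g6 P ?_ _ ?_
  · intro r a1 a2 lam a3 K a4
    refine le_trans (le_of_eq ?_) (g2 W w hR r a1 a2 lam a3 K a4)
    unfold ST.mu
    rfl
  · refine hP.trans (le_of_eq ?_)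
    unfold ST.mu
    rfl
  · intro x a1 a2 a3 a4
    rw [Finset.mem_filter, Finset.mem_Ioc]
    exact ⟨⟨a1, a2⟩, a3, a4⟩

end Pool.Agent.N610.PL
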